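import Pool.Agent.H38R2.CG2.Stubs

/-!
# Bonferroni inequalities with weights (piece BF of h784_pieces)
-/

set_option autoImplicit false

namespace Run7.h67.CG

open Finset Filter Pool.Agent.H38R2.CG Pool.Agent.H38R2.CG2
open scoped Classical

/-- truncated sums -/
noncomputable def TS (x : ℕ → ℝ) (P : Finset ℕ) (m : ℕ) : ℝ :=
  ∑ A ∈ P.powerset.filter (fun A => A.card ≤ m), (-1 : ℝ) ^ A.card * ∏ p ∈ A, x p

theorem sum_powerset_insert' {β : Type*} [AddCommMonoid β] (P : Finset ℕ) (a : ℕ) (ha : a ∉ P)
    (f : Finset ℕ → β) :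
    ∑ A ∈ (insert a P).powerset, f A = ∑ A ∈ P.powerset, f A + ∑ A ∈ P.powerset, f (insert a A) :=
  Finset.sum_powerset_insert ha f

theorem TS_insert (x : ℕ → ℝ) (P : Finset ℕ) (a : ℕ) (ha : a ∉ P) (m : ℕ) :
    TS x (insert a P) (m + 1) = TS x P (m + 1) - x a * TS x P m := by
  unfold TS
  rw [Finset.sum_filter, Finset.sum_filter, Finset.sum_filter, sum_powerset_insert' P a ha,
    sub_eq_add_neg]
  congr 1
  rw [Finset.mul_sum, ← Finset.sum_neg_distrib]
  refine Finset.sum_congr rfl fun A hA => ?_
  rw [Finset.mem_powerset] at hA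
  have haA : a ∉ A := fun h => ha (hA h)
  rw [Finset.card_insert_of_notMem haA, Finset.prod_insert haA]
  by_cases h : A.card ≤ m
  · rw [if_pos (by omega), if_pos h]
    ring
  · rw [if_neg (by omega), if_neg h]
    ring

theorem TS_zero (x : ℕ → ℝ) (P : Finset ℕ) : TS x P 0 = 1 := by
  unfold TS
  have : P.powerset.filter (fun A => A.card ≤ 0) = {∅} := by
    ext A
    simp only [Finset.mem_filter, Finset.mem_powerset, Nat.le_zero, Finset.card_eq_zero,
      Finset.mem_singleton]
    constructor
    · exact fun h => h.2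
    · rintro rfl
      exact ⟨Finset.empty_subset _, rfl⟩
  rw [this]
  simp

theorem TS_empty (x : ℕ → ℝ) (m : ℕ) : TS x ∅ m = 1 := by
  unfold TS
  have : (∅ : Finset ℕ).powerset.filter (fun A => A.card ≤ m) = {∅} := by
    ext A
    simp only [Finset.mem_filter, Finset.powerset_empty, Finset.mem_singleton]
    constructor
    · exact fun h => h.1
    · rintro rfl
      exact ⟨rfl, by simp⟩
  rw [this]
  simp

theorem TS_sign (x : ℕ → ℝ) (P : Finset ℕ) : (∀ p ∈ P, 0 ≤ x p ∧ x p ≤ 1) → ∀ m : ℕ,
    0 ≤ (-1 : ℝ) ^ m * (TS x P m - ∏ p ∈ P, (1 - x p)) := by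
  induction P using Finset.induction_on with
  | empty =>
    intro _ m
    rw [TS_empty]
    simp
  | insert a P ha ih =>
    intro hx m
    have ih' := ih fun p hp => hx p (Finset.mem_insert_of_mem hp)
    have hxa := hx a (Finset.mem_insert_self _ _)
    rw [Finset.prod_insert ha]
    have hP0 : 0 ≤ ∏ p ∈ P, (1 - x p) := Finset.prod_nonneg fun p hp => by
      linarith [(hx p (Finset.mem_insert_of_mem hp)).2]
    have hP1 : ∏ p ∈ P, (1 - x p) ≤ 1 := Finset.prod_le_one
      (fun p hp => by linarith [(hx p (Finset.mem_insert_of_mem hp)).2])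
      (fun p hp => by linarith [(hx p (Finset.mem_insert_of_mem hp)).1])
    cases m with
    | zero =>
      rw [TS_zero, pow_zero, one_mul, sub_nonneg]
      nlinarith [hxa.1, hxa.2]
    | succ m =>
      rw [TS_insert x P a ha]
      have h1 := ih' (m + 1)
      have h2 := mul_nonneg hxa.1 (ih' m)
      have e : (-1 : ℝ) ^ (m + 1) * (TS x P (m + 1) - x a * TS x P m -
          (1 - x a) * ∏ p ∈ P, (1 - x p)) =
          (-1 : ℝ) ^ (m + 1) * (TS x P (m + 1) - ∏ p ∈ P, (1 - x p)) +
            x a * ((-1 : ℝ) ^ m * (TS x P m - ∏ p ∈ P, (1 - x p))) := by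
        rw [pow_succ]
        ring
      rw [e]
      exact add_nonneg h1 h2

theorem pow_add_ge (s t : ℝ) (hs : 0 ≤ s) (ht : 0 ≤ t) (k : ℕ) :
    s ^ (k + 1) + (k + 1) * s ^ k * t ≤ (s + t) ^ (k + 1) := by
  induction k with
  | zero => simp
  | succ k ih =>
    calc s ^ (k + 1 + 1) + ((k + 1 : ℕ) + 1) * s ^ (k + 1) * t
        ≤ (s ^ (k + 1) + (k + 1) * s ^ k * t) * (s + t) := by
          have : 0 ≤ (k + 1) * s ^ k * t * t := by positivity
          push_cast
          ring_nf
          ring_nf at this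
          nlinarith [this]
      _ ≤ (s + t) ^ (k + 1) * (s + t) := by gcongr
      _ = (s + t) ^ (k + 1 + 1) := by ring

theorem esymm_le (x : ℕ → ℝ) (P : Finset ℕ) : (∀ p ∈ P, 0 ≤ x p) → ∀ k : ℕ,
    ∑ A ∈ P.powersetCard k, ∏ p ∈ A, x p ≤ (∑ p ∈ P, x p) ^ k / k.factorial := by
  induction P using Finset.induction_on with
  | empty =>
    intro _ k
    cases k with
    | zero => simp
    | succ k =>
      rw [Finset.powersetCard_eq_empty.2 (by simp)]
      simp
  | insert a P ha ih =>
    intro hx k
    have ih' := ih fun p hp => hx p (Finset.mem_insert_of_mem hp)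
    have hxa := hx a (Finset.mem_insert_self _ _)
    cases k with
    | zero => simp
    | succ k =>
      rw [Finset.powersetCard_succ_insert ha, Finset.sum_union, Finset.sum_image,
        Finset.sum_insert ha]
      · have hs : 0 ≤ ∑ p ∈ P, x p := Finset.sum_nonneg fun p hp =>
          hx p (Finset.mem_insert_of_mem hp)
        have h1 := ih' (k + 1)
        have h2 := ih' k
        have h3 : ∑ A ∈ P.powersetCard k, ∏ p ∈ insert a A, x p =
            x a * ∑ A ∈ P.powersetCard k, ∏ p ∈ A, x p := by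
          rw [Finset.mul_sum]
          refine Finset.sum_congr rfl fun A hA => ?_
          rw [Finset.mem_powersetCard] at hA
          rw [Finset.prod_insert fun h => ha (hA.1 h)]
        rw [h3]
        have h4 := pow_add_ge (∑ p ∈ P, x p) (x a) hs hxa k
        have hf : (0 : ℝ) < (k + 1).factorial := by positivity
        have hf' : (0 : ℝ) < k.factorial := by positivity
        have hfe : ((k + 1).factorial : ℝ) = (k + 1) * k.factorial := by
          rw [Nat.factorial_succ]
          push_cast
          ring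
        calc ∑ A ∈ P.powersetCard (k + 1), ∏ p ∈ A, x p +
              x a * ∑ A ∈ P.powersetCard k, ∏ p ∈ A, x p
            ≤ (∑ p ∈ P, x p) ^ (k + 1) / (k + 1).factorial +
              x a * ((∑ p ∈ P, x p) ^ k / k.factorial) := by gcongr
          _ = ((∑ p ∈ P, x p) ^ (k + 1) + (k + 1) * (∑ p ∈ P, x p) ^ k * x a) /
              (k + 1).factorial := by
            rw [hfe]
            field_simp
          _ ≤ (∑ p ∈ P, x p + x a) ^ (k + 1) / (k + 1).factorial := by gcongr
          _ = _ := by rw [add_comm]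
      · intro A hA B hB hAB
        rw [Finset.mem_coe, Finset.mem_powersetCard] at hA hB
        have h1 : a ∉ A := fun h => ha (hA.1 h)
        have h2 : a ∉ B := fun h => ha (hB.1 h)
        rw [← Finset.erase_insert h1, hAB, Finset.erase_insert h2]
      · rw [Finset.disjoint_left]
        intro A hA hA'
        rw [Finset.mem_powersetCard] at hA
        rw [Finset.mem_image] at hA'
        obtain ⟨B, _, rfl⟩ := hA'
        exact ha (hA.1 (Finset.mem_insert_self _ _))

theorem TS_succ (x : ℕ → ℝ) (P : Finset ℕ) (m : ℕ) :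
    TS x P (m + 1) = TS x P m + (-1 : ℝ) ^ (m + 1) * ∑ A ∈ P.powersetCard (m + 1), ∏ p ∈ A, x p := by
  unfold TS
  have h : P.powerset.filter (fun A => A.card ≤ m + 1) =
      P.powerset.filter (fun A => A.card ≤ m) ∪ P.powersetCard (m + 1) := by
    ext A
    simp only [Finset.mem_filter, Finset.mem_union, Finset.mem_powerset,
      Finset.mem_powersetCard]
    constructor
    · rintro ⟨h1, h2⟩
      rcases Nat.lt_or_ge A.card (m + 1) with h3 | h3
      · exact Or.inl ⟨h1, by omega⟩
      · exact Or.inr ⟨h1, by omega⟩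
    · rintro (⟨h1, h2⟩ | ⟨h1, h2⟩)
      · exact ⟨h1, by omega⟩
      · exact ⟨h1, by omega⟩
  rw [h, Finset.sum_union, Finset.mul_sum]
  · congr 1
    refine Finset.sum_congr rfl fun A hA => ?_
    rw [Finset.mem_powersetCard] at hA
    rw [hA.2]
  · rw [Finset.disjoint_left]
    intro A hA hA'
    rw [Finset.mem_filter] at hA
    rw [Finset.mem_powersetCard] at hA'
    omega

theorem T2_BF : P2_BF := by
  intro P x b hx
  have h0 := TS_sign x P hx (2 * b)
  have h1 := TS_sign x P hx (2 * b + 1)
  have h2 := TS_succ x P (2 * b)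
  have h3 := esymm_le x P (fun p hp => (hx p hp).1) (2 * b + 1)
  rw [pow_mul, neg_one_sq, one_pow, one_mul] at h0
  rw [pow_succ, pow_mul, neg_one_sq, one_pow, one_mul] at h1 h2
  refine ⟨?_, ?_⟩
  · exact sub_nonneg.1 h0
  · show TS x P (2 * b) ≤ _
    linarith

end Run7.h67.CG
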