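import Pool.Agent.Run7.h67.CG.BHc

/-!
# Existence of upper bound sieve weights (piece BH of h784_pieces)
-/

set_option autoImplicit false

namespace Run7.h67.CG

open Finset Filter Pool.Agent.H38R2.CG Pool.Agent.H38R2.CG2
open scoped Classical

theorem prime_dvd_Qz {z p : ℕ} (hz : 2 ≤ z) (hp : p.Prime) (h : p ∣ Qz z) : p ≤ z := by
  unfold Qz at h
  rcases (hp.dvd_mul).1 h with h1 | h1
  · have : p ∣ 2 ^ 4 := by norm_num; exact h1
    have h2 := (Nat.prime_dvd_prime_iff_eq hp Nat.prime_two).1 (hp.dvd_of_dvd_pow this)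
    omega
  · obtain ⟨l, hl, h2⟩ := (Prime.dvd_finset_prod_iff hp.prime _).1 h1
    rw [Finset.mem_filter, Finset.mem_Icc] at hl
    have h3 := (Nat.prime_dvd_prime_iff_eq hp hl.2).1 (hp.dvd_of_dvd_pow h2)
    omega

theorem T2_BH : P2_BH := by
  intro δ hδ hδ1
  obtain ⟨C1, hC1, h⟩ := T2_BHc δ hδ hδ1
  refine ⟨C1 + ⌈Real.exp (3 * 8)⌉₊, by omega, fun z hz a ha => ?_⟩
  obtain ⟨X0, hX0⟩ := h z hz a ha
  refine ⟨max X0 3, fun X hX => ?_⟩
  have hXX0 : X0 ≤ X := (le_max_left _ _).trans hX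
  have hX3 : 3 ≤ X := (le_max_right _ _).trans hX
  have hX1 : 1 ≤ X := by omega
  have hlog1 : 1 ≤ Real.log X := by
    rw [Real.le_log_iff_exp_le (by positivity)]
    have h1 := Real.exp_one_lt_d9
    have h2 : (3 : ℝ) ≤ X := by exact_mod_cast hX3
    linarith
  obtain ⟨hlow, hup⟩ := hX0 X hXX0
  have hprime : ∀ j < X, ∀ p ∈ blk z a X δ j, p.Prime := fun j _ => blk_prime z a X δ j
  have hdisj : ∀ i < X, ∀ j < X, i ≠ j → Disjoint (blk z a X δ i) (blk z a X δ j) :=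
    fun i _ j _ hij => blk_disj z a X δ hX1 hδ hij
  have hlev : ∀ d, rhoX z a X δ d ≠ 0 → (d : ℝ) ≤ (X : ℝ) ^ δ := fun d hd =>
    T2_BHa z a X δ d hz hX1 hδ hd
  have hle : ∀ d, rhoB X (blk z a X δ) (fun j => j + 1) d ≠ 0 → d ≤ X := fun d hd => by
    have h1 := hlev d hd
    have h2 : (X : ℝ) ^ δ ≤ (X : ℝ) ^ (1 : ℝ) :=
      Real.rpow_le_rpow_of_exponent_le (by exact_mod_cast hX1) hδ1
    rw [Real.rpow_one] at h2
    exact_mod_cast h1.trans h2
  refine ⟨rhoX z a X δ, ⟨?_, ?_, ?_, ?_, ?_⟩, ?_, ?_⟩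
  · intro d hd
    obtain ⟨hsq, hcov, hcard⟩ := (rhoB_ne _ _ _ d).1 hd
    refine ⟨Nat.one_le_iff_ne_zero.2 hsq.ne_zero, hlev d hd, hsq, ?_, ?_⟩
    · refine Nat.Coprime.symm (Nat.coprime_of_dvd fun p hp hpQ hpd => ?_)
      obtain ⟨j, _, hj⟩ := hcov p (Nat.mem_primeFactors.2 ⟨hp, hpd, hsq.ne_zero⟩)
      unfold blk at hj
      rw [Finset.mem_filter] at hj
      have := prime_dvd_Qz hz hp hpQ
      omega
    · intro p hp hpd
      have hpp : p.Prime := by
        unfold PA PP at hp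
        exact (Finset.mem_filter.1 hp).2
      obtain ⟨j, _, hj⟩ := hcov p (Nat.mem_primeFactors.2 ⟨hpp, hpd, hsq.ne_zero⟩)
      unfold blk at hj
      rw [Finset.mem_filter] at hj
      exact hj.2.2.2 hp
  · intro d
    unfold rhoX
    rw [rhoB_eq]
    split_ifs
    · rw [abs_pow, abs_neg, abs_one, one_pow]
    · rw [abs_zero]
      exact zero_le_one
  · refine le_trans (inv_anti₀ (by positivity) ?_) hlow
    exact pow_le_pow_right₀ hlog1 (by omega)
  · intro g hg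
    refine T2_HD X X (blk z a X δ) (fun j => j + 1) 8 _ (by norm_num) hprime hdisj hle
      (fun j _ => blk_sum_le z a X δ hX1 hδ j) ?_ g hg
    push_cast
    have h1 := Nat.le_ceil (Real.exp (3 * 8))
    have h2 : (0 : ℝ) ≤ C1 := by positivity
    linarith
  · intro x hx
    have h1 := T2_HB X X (blk z a X δ) (fun j => j + 1) x hprime hdisj hle
    have h2 : ∑ d ∈ Finset.Icc 1 X, rhoX z a X δ d * ∏ p ∈ d.primeFactors, x p =
      ∏ j ∈ Finset.range X, ∑ A ∈ (blk z a X δ j).powerset.filter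
        (fun A => A.card ≤ 2 * (j + 1)), (-1 : ℝ) ^ A.card * ∏ p ∈ A, x p := h1
    rw [h2]
    refine Finset.prod_nonneg fun j _ => ?_
    refine le_trans ?_ (T2_BF (blk z a X δ j) x (j + 1) fun p _ => hx p).1
    exact Finset.prod_nonneg fun p _ => by linarith [(hx p).2]
  · unfold rhoX
    rw [rhoB_eq, if_pos]
    · simp
    · exact ⟨squarefree_one, by simp, by simp⟩
  · refine hup.trans ?_
    have hlX : 0 < Real.log X := by linarith
    gcongr
    push_cast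
    have h2 : (0 : ℝ) ≤ (⌈Real.exp (3 * 8)⌉₊ : ℝ) := by positivity
    linarith

end Run7.h67.CG
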