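import Pool.Agent.Run7.h67.CG.HB

/-!
# Level of the sieve weights (piece BHa of h784_pieces)
-/

set_option autoImplicit false

namespace Run7.h67.CG

open Finset Filter Pool.Agent.H38R2.CG Pool.Agent.H38R2.CG2
open scoped Classical

theorem geo_sum (n : ℕ) :
    ∑ j ∈ Finset.range n, ((j : ℝ) + 1) / 2 ^ j = 4 - 2 * (n + 2) / 2 ^ n := by
  induction n with
  | zero => norm_num
  | succ n ih =>
    rw [Finset.sum_range_succ, ih]
    have : (2 : ℝ) ^ n ≠ 0 := by positivity
    rw [pow_succ]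
    push_cast
    field_simp
    ring

theorem T2_BHa : P2_BHa := by
  intro z a X δ d _ hX hδ hne
  obtain ⟨hsq, hcov, hcard⟩ := (rhoB_ne _ _ _ d).1 hne
  have hX1 : (1 : ℝ) ≤ X := by exact_mod_cast hX
  have hlX : 0 ≤ Real.log X := Real.log_nonneg hX1
  have hd0 : (0 : ℝ) < d := by exact_mod_cast Nat.pos_of_ne_zero hsq.ne_zero
  have hlog : Real.log d = ∑ p ∈ d.primeFactors, Real.log p := by
    have h1 : ((∏ p ∈ d.primeFactors, p : ℕ) : ℝ) = d := by
      rw [Nat.prod_primeFactors_of_squarefree hsq]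
    rw [← h1, Nat.cast_prod, Real.log_prod]
    intro p hp
    exact_mod_cast (Nat.prime_of_mem_primeFactors hp).ne_zero
  have hlp : ∀ p ∈ d.primeFactors, 0 ≤ Real.log p := fun p hp =>
    Real.log_nonneg (by exact_mod_cast (Nat.prime_of_mem_primeFactors hp).one_le)
  have h2 : Real.log d ≤ ∑ j ∈ Finset.range X,
      ∑ p ∈ d.primeFactors ∩ blk z a X δ j, Real.log p := by
    rw [hlog]
    have h3 : ∀ p ∈ d.primeFactors, Real.log p ≤ ∑ j ∈ Finset.range X,
        (if p ∈ blk z a X δ j then Real.log p else 0) := by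
      intro p hp
      obtain ⟨j, hj, hpj⟩ := hcov p hp
      have h4 := Finset.single_le_sum (f := fun j => if p ∈ blk z a X δ j then Real.log (p : ℝ)
        else 0) (fun i _ => by
          show 0 ≤ (if p ∈ blk z a X δ i then Real.log (p : ℝ) else 0)
          split_ifs
          · exact hlp p hp
          · exact le_rfl) (Finset.mem_range.2 hj)
      simp only [if_pos hpj] at h4
      exact h4
    refine (Finset.sum_le_sum h3).trans (le_of_eq ?_)
    rw [Finset.sum_comm]
    refine Finset.sum_congr rfl fun j _ => ?_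
    rw [Finset.sum_ite_mem]
  have h3 : ∀ j ∈ Finset.range X, ∑ p ∈ d.primeFactors ∩ blk z a X δ j, Real.log p ≤
      δ / 4 * Real.log X * (((j : ℝ) + 1) / 2 ^ j) := by
    intro j hj
    rw [Finset.mem_range] at hj
    have h4 : ∀ p ∈ d.primeFactors ∩ blk z a X δ j, Real.log p ≤ δ / 8 / 2 ^ j * Real.log X := by
      intro p hp
      rw [Finset.mem_inter] at hp
      have h5 := hp.2
      unfold blk at h5
      rw [Finset.mem_filter, Finset.mem_Ioc] at h5
      have h6 : (p : ℝ) ≤ (X : ℝ) ^ (δ / 8 / 2 ^ j) :=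
        (Nat.le_floor_iff (by positivity)).1 h5.1.2
      have h7 : (0 : ℝ) < p := by exact_mod_cast h5.2.1.pos
      calc Real.log p ≤ Real.log ((X : ℝ) ^ (δ / 8 / 2 ^ j)) := Real.log_le_log h7 h6
        _ = _ := Real.log_rpow (by linarith) _
    refine (Finset.sum_le_card_nsmul _ _ _ h4).trans ?_
    rw [nsmul_eq_mul]
    have h5 : ((d.primeFactors ∩ blk z a X δ j).card : ℝ) ≤ 2 * ((j : ℝ) + 1) := by
      have := hcard j hj
      exact_mod_cast this
    calc ((d.primeFactors ∩ blk z a X δ j).card : ℝ) * (δ / 8 / 2 ^ j * Real.log X)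
        ≤ 2 * ((j : ℝ) + 1) * (δ / 8 / 2 ^ j * Real.log X) := by gcongr
      _ = δ / 4 * Real.log X * (((j : ℝ) + 1) / 2 ^ j) := by ring
  have h4 : Real.log d ≤ δ * Real.log X := by
    refine h2.trans ((Finset.sum_le_sum h3).trans ?_)
    rw [← Finset.mul_sum, geo_sum]
    have h5 : 0 ≤ 2 * ((X : ℝ) + 2) / 2 ^ X := by positivity
    have h6 : 0 ≤ δ / 4 * Real.log X := by positivity
    nlinarith
  calc (d : ℝ) = Real.exp (Real.log d) := (Real.exp_log hd0).symm
    _ ≤ Real.exp (δ * Real.log X) := Real.exp_le_exp.2 h4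
    _ = (X : ℝ) ^ δ := by
      rw [Real.rpow_def_of_pos (by linarith), mul_comm]

end Run7.h67.CG
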