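import Pool.Agent.H38R2.CG2.Stubs
import Pool.Agent.Helper601.JobB

/-!
# Chebyshev and Mertens type bounds (piece CHMP of h784_pieces)
-/

set_option autoImplicit false

namespace Run7.h67.CG

open Finset Filter Pool.Agent.H38R2.CG Pool.Agent.H38R2.CG2
open scoped Classical

/-- the inverse as a multiplicative function -/
noncomputable def invF : ℕ →* ℝ where
  toFun n := (n : ℝ)⁻¹
  map_one' := by simp
  map_mul' a b := by push_cast; rw [mul_inv]

theorem harm_le (N : ℕ) :
    ∑ n ∈ Finset.Icc 1 N, (n : ℝ)⁻¹ ≤ ∏ p ∈ (N + 1).primesBelow, (1 - (p : ℝ)⁻¹)⁻¹ := by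
  have h := (EulerProduct.summable_and_hasSum_smoothNumbers_prod_primesBelow_geometric
    (f := invF) (fun {p} hp => by
      show ‖((p : ℝ)⁻¹)‖ < 1
      rw [norm_inv, Real.norm_of_nonneg (by positivity)]
      exact inv_lt_one_of_one_lt₀ (by exact_mod_cast hp.one_lt)) (N + 1)).2
  have hmem : ∀ n ∈ Finset.Icc 1 N, n ∈ Nat.smoothNumbers (N + 1) := by
    intro n hn
    rw [Finset.mem_Icc] at hn
    rw [Nat.mem_smoothNumbers']
    intro p _ hpn
    exact Nat.lt_succ_of_le ((Nat.le_of_dvd (by omega) hpn).trans hn.2)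
  have h2 := h.summable.sum_le_tsum
    ((Finset.Icc 1 N).subtype (fun n => n ∈ Nat.smoothNumbers (N + 1)))
    (fun n _ => by
      show 0 ≤ ((n : ℕ) : ℝ)⁻¹
      positivity)
  rw [h.tsum_eq] at h2
  refine le_trans (le_of_eq ?_) h2
  rw [Finset.sum_subtype_of_mem (f := fun n : ℕ => (n : ℝ)⁻¹) hmem |>.symm]
  rfl

theorem log_le_harm (N : ℕ) : Real.log N ≤ ∑ n ∈ Finset.Icc 1 N, (n : ℝ)⁻¹ := by
  have h := log_add_one_le_harmonic N
  have h2 : ((harmonic N : ℚ) : ℝ) = ∑ n ∈ Finset.Icc 1 N, (n : ℝ)⁻¹ := by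
    rw [harmonic_eq_sum_Icc]
    push_cast
    rfl
  rw [h2] at h
  refine le_trans ?_ h
  rcases Nat.eq_zero_or_pos N with rfl | hN
  · simp
  · exact Real.log_le_log (by exact_mod_cast hN) (by push_cast; linarith)

theorem primes_eq (N : ℕ) : (Finset.Icc 2 N).filter Nat.Prime = (N + 1).primesBelow := by
  ext p
  rw [Finset.mem_filter, Finset.mem_Icc, Nat.mem_primesBelow]
  constructor
  · rintro ⟨⟨_, h2⟩, h3⟩
    exact ⟨by omega, h3⟩
  · rintro ⟨h1, h2⟩
    exact ⟨⟨h2.two_le, by omega⟩, h2⟩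

theorem T2_MP : P2_MP := by
  intro N hN
  have h1 := (log_le_harm N).trans (harm_le N)
  have hl : 0 < Real.log N := Real.log_pos (by exact_mod_cast hN)
  have e : ∏ p ∈ (Finset.Icc 2 N).filter Nat.Prime, (1 - (1 : ℝ) / p) =
      (∏ p ∈ (N + 1).primesBelow, (1 - (p : ℝ)⁻¹)⁻¹)⁻¹ := by
    rw [primes_eq, ← Finset.prod_inv_distrib]
    refine Finset.prod_congr rfl fun p _ => ?_
    rw [inv_inv, one_div]
  rw [e, one_div]
  exact inv_anti₀ hl h1

theorem log_le_sqrt (x : ℝ) (hx : 0 < x) : Real.log x ≤ 2 * √x := by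
  have h1 : 0 < √x := Real.sqrt_pos.2 hx
  have h2 : Real.log x = 2 * Real.log (√x) := by
    rw [Real.log_sqrt hx.le]
    ring
  rw [h2]
  linarith [Real.log_le_sub_one_of_pos h1]

theorem pi_le (N : ℕ) (hN : 2 ≤ N) :
    (((Finset.Icc 2 N).filter Nat.Prime).card : ℝ) ≤ 8 * N / Real.log N := by
  have hN1 : (1 : ℝ) < N := by exact_mod_cast hN
  have hl : 0 < Real.log N := Real.log_pos hN1
  have h := Chebyshev.pi_le_log4_mul_div hN1
  have e : (Nat.primeCounting ⌊(N : ℝ)⌋₊ : ℝ) = ((Finset.Icc 2 N).filter Nat.Prime).card := by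
    rw [Nat.floor_natCast, primes_eq, Nat.primesBelow_card_eq_primeCounting']
    rfl
  rw [← e]
  refine h.trans ?_
  have hs : Real.log (√(N : ℝ)) = Real.log N / 2 := Real.log_sqrt (by positivity)
  rw [hs]
  have h4 : Real.log 4 ≤ 2 := by
    have : Real.log 4 = 2 * Real.log 2 := by
      rw [show (4 : ℝ) = 2 ^ 2 by norm_num, Real.log_pow]; norm_num
    have := Real.log_two_lt_d9
    linarith
  have h5 : √(N : ℝ) ≤ 2 * N / Real.log N := by
    rw [le_div_iff₀ hl]
    calc √(N : ℝ) * Real.log N ≤ √(N : ℝ) * (2 * √(N : ℝ)) := by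
          gcongr
          exact log_le_sqrt _ (by positivity)
      _ = 2 * (√(N : ℝ) * √(N : ℝ)) := by ring
      _ = 2 * N := by rw [Real.mul_self_sqrt (by positivity)]
  have h6 : Real.log 4 * N / (Real.log N / 2) ≤ 4 * N / Real.log N := by
    rw [div_div_eq_mul_div, div_le_div_iff_of_pos_right hl]
    nlinarith
  calc Real.log 4 * N / (Real.log N / 2) + √(N : ℝ)
      ≤ 4 * N / Real.log N + 2 * N / Real.log N := add_le_add h6 h5
    _ = 6 * N / Real.log N := by ring
    _ ≤ 8 * N / Real.log N := by gcongr; norm_num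

theorem PP_sum_le (y : ℕ) : ∑ p ∈ PP y, (1 : ℝ) / p ≤ 1 := by
  rcases Nat.eq_zero_or_pos y with rfl | hy
  · simp [PP]
  · have hy0 : (0 : ℝ) < y := by exact_mod_cast hy
    have h1 : ∀ p ∈ PP y, (1 : ℝ) / p ≤ 1 / y := by
      intro p hp
      unfold PP at hp
      rw [Finset.mem_filter, Finset.mem_Ioc] at hp
      exact one_div_le_one_div_of_le hy0 (by exact_mod_cast hp.1.1.le)
    refine (Finset.sum_le_card_nsmul _ _ _ h1).trans ?_
    rw [nsmul_eq_mul]
    have h2 : ((PP y).card : ℝ) ≤ y := by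
      have : (PP y).card ≤ (Finset.Ioc y (2 * y)).card := Finset.card_filter_le _ _
      rw [Nat.card_Ioc] at this
      exact_mod_cast (by omega : (PP y).card ≤ y)
    rw [mul_one_div, div_le_one hy0]
    exact h2

theorem sqrt_sum_le (x : ℝ) (hx : 1 ≤ x) :
    ∑ p ∈ (Finset.Ioc ⌊√x⌋₊ ⌊x⌋₊).filter Nat.Prime, (1 : ℝ) / p ≤ 8 := by
  rcases lt_or_ge x 2 with h2 | h2
  · have hf : ⌊x⌋₊ < 2 := by
      rw [Nat.floor_lt (by linarith)]
      exact_mod_cast h2
    rw [Finset.sum_eq_zero]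
    · norm_num
    · intro p hp
      rw [Finset.mem_filter, Finset.mem_Ioc] at hp
      have := hp.2.two_le
      omega
  · have hlx : 0 < Real.log x := Real.log_pos (by linarith)
    have hl2 : Real.log 2 ≤ Real.log x := Real.log_le_log (by norm_num) h2
    have hN : 1 ≤ ⌊x⌋₊ := Nat.le_floor (by exact_mod_cast hx)
    have h1 := Pool.Agent.Helper601.JobB.mertens_log ⌊x⌋₊ hN
    have hfl : Real.log ⌊x⌋₊ ≤ Real.log x :=
      Real.log_le_log (by exact_mod_cast hN) (Nat.floor_le (by linarith))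
    have hs : Real.log (√x) = Real.log x / 2 := Real.log_sqrt (by positivity)
    have h3 : ∀ p ∈ (Finset.Ioc ⌊√x⌋₊ ⌊x⌋₊).filter Nat.Prime,
        (1 : ℝ) / p ≤ 2 / Real.log x * (Real.log p / p) := by
      intro p hp
      rw [Finset.mem_filter, Finset.mem_Ioc] at hp
      have hp0 : (0 : ℝ) < p := by exact_mod_cast hp.2.pos
      have h4 : √x < p := (Nat.floor_lt (by positivity)).1 hp.1.1
      have h5 : Real.log x / 2 ≤ Real.log p := by
        rw [← hs]
        exact Real.log_le_log (by positivity) h4.le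
      rw [← mul_div_assoc, div_le_div_iff_of_pos_right hp0, div_mul_eq_mul_div, le_div_iff₀ hlx]
      linarith
    calc ∑ p ∈ (Finset.Ioc ⌊√x⌋₊ ⌊x⌋₊).filter Nat.Prime, (1 : ℝ) / p
        ≤ ∑ p ∈ (Finset.Ioc ⌊√x⌋₊ ⌊x⌋₊).filter Nat.Prime,
            2 / Real.log x * (Real.log p / p) := Finset.sum_le_sum h3
      _ ≤ ∑ p ∈ (Finset.Icc 1 ⌊x⌋₊).filter Nat.Prime, 2 / Real.log x * (Real.log p / p) := by
          refine Finset.sum_le_sum_of_subset_of_nonneg ?_ ?_
          · intro p hp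
            rw [Finset.mem_filter, Finset.mem_Ioc] at hp
            rw [Finset.mem_filter, Finset.mem_Icc]
            exact ⟨⟨hp.2.one_le, hp.1.2⟩, hp.2⟩
          · intro p hp _
            rw [Finset.mem_filter] at hp
            have : 0 ≤ Real.log p := Real.log_nonneg (by exact_mod_cast hp.2.one_le)
            positivity
      _ = 2 / Real.log x * ∑ p ∈ (Finset.Icc 1 ⌊x⌋₊).filter Nat.Prime, Real.log p / p := by
          rw [Finset.mul_sum]
      _ ≤ 2 / Real.log x * (Real.log x + 2) := by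
          gcongr
          linarith
      _ = 2 + 4 / Real.log x := by
          field_simp
          ring
      _ ≤ 8 := by
          have : 4 / Real.log x ≤ 6 := by
            rw [div_le_iff₀ hlx]
            have := Real.log_two_gt_d9
            linarith
          linarith

theorem T2_CH : P2_CH :=
  ⟨8, by norm_num, fun x hx => sqrt_sum_le x hx, fun y => (PP_sum_le y).trans (by norm_num),
    fun N hN => pi_le N hN⟩

end Run7.h67.CG
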