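import Pool.Agent.Run7.h67.CG.HD
import Pool.Agent.Run7.h67.CG.BHa
import Pool.Agent.Run7.h67.CG.CHMP
import Pool.Agent.Helper601.Mertens

/-!
# Size of the density of the weights (piece BHc of h784_pieces)
-/

set_option autoImplicit false

namespace Run7.h67.CG

open Finset Filter Pool.Agent.H38R2.CG Pool.Agent.H38R2.CG2
open scoped Classical

/-- products of `1 - 1 / p` -/
noncomputable def pr (P : Finset ℕ) : ℝ := ∏ p ∈ P, (1 - (1 : ℝ) / p)

theorem one_sub_mem {p : ℕ} (hp : p.Prime) : 1 / 2 ≤ 1 - (1 : ℝ) / p ∧ 1 - (1 : ℝ) / p ≤ 1 := by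
  have h2 : (2 : ℝ) ≤ p := by exact_mod_cast hp.two_le
  have h3 : (1 : ℝ) / p ≤ 1 / 2 := one_div_le_one_div_of_le (by norm_num) h2
  have h4 : (0 : ℝ) ≤ 1 / p := by positivity
  constructor <;> linarith

theorem pr_pos (P : Finset ℕ) (hP : ∀ p ∈ P, p.Prime) : 0 < pr P :=
  Finset.prod_pos fun p hp => by linarith [(one_sub_mem (hP p hp)).1]

theorem pr_le_one (P : Finset ℕ) (hP : ∀ p ∈ P, p.Prime) : pr P ≤ 1 :=
  Finset.prod_le_one (fun p hp => by linarith [(one_sub_mem (hP p hp)).1])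
    fun p hp => (one_sub_mem (hP p hp)).2

theorem pr_ge (P : Finset ℕ) (L : ℝ) (hP : ∀ p ∈ P, p.Prime) (hL : ∑ p ∈ P, (1 : ℝ) / p ≤ L) :
    Real.exp (-(2 * L)) ≤ pr P := by
  calc Real.exp (-(2 * L)) ≤ Real.exp (-(2 * ∑ p ∈ P, (1 : ℝ) / p)) := by
        apply Real.exp_le_exp.2
        linarith
    _ = ∏ p ∈ P, Real.exp (-(2 * ((1 : ℝ) / p))) := by
        rw [← Real.exp_sum, Finset.mul_sum, ← Finset.sum_neg_distrib]
    _ ≤ ∏ p ∈ P, (1 - (1 : ℝ) / p) := by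
        refine Finset.prod_le_prod (fun p _ => (Real.exp_pos _).le) fun p hp => ?_
        refine exp_neg_two _ (by positivity) ?_
        linarith [(one_sub_mem (hP p hp)).1]

theorem pr_anti (S T : Finset ℕ) (hST : S ⊆ T) (hT : ∀ p ∈ T, p.Prime) : pr T ≤ pr S := by
  unfold pr
  rw [← Finset.prod_sdiff hST]
  have h1 : pr (T \ S) ≤ 1 := pr_le_one _ fun p hp => hT p (Finset.mem_sdiff.1 hp).1
  have h2 : 0 < pr S := pr_pos _ fun p hp => hT p (hST hp)
  exact mul_le_of_le_one_left h2.le h1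

theorem GJ_le (P : Finset ℕ) (c : ℕ) (L : ℝ) (hP : ∀ p ∈ P, p.Prime)
    (hL : ∑ p ∈ P, (1 : ℝ) / p ≤ L) (hL0 : 0 ≤ L) :
    pr P ≤ GJ P c ∧ GJ P c ≤ pr P *
      Real.exp (Real.exp (2 * L) * (L ^ (2 * c + 1) / (2 * c + 1).factorial)) := by
  have h := T2_BF P (fun p => (1 : ℝ) / p) c (fun p hp => ⟨by positivity, by
    linarith [(one_sub_mem (hP p hp)).1]⟩)
  refine ⟨h.1, h.2.trans ?_⟩
  have h1 := pr_ge P L hP hL
  have h2 : 0 < pr P := pr_pos P hP
  have h3 : 0 ≤ ∑ p ∈ P, (1 : ℝ) / p := Finset.sum_nonneg fun p _ => by positivity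
  have h4 : (∑ p ∈ P, (1 : ℝ) / p) ^ (2 * c + 1) / (2 * c + 1).factorial ≤
      L ^ (2 * c + 1) / (2 * c + 1).factorial := by gcongr
  have h5 : (1 : ℝ) ≤ pr P * Real.exp (2 * L) := by
    calc (1 : ℝ) = Real.exp (-(2 * L)) * Real.exp (2 * L) := by
          rw [← Real.exp_add]; simp
      _ ≤ pr P * Real.exp (2 * L) := by gcongr
  set t := L ^ (2 * c + 1) / ((2 * c + 1).factorial : ℝ) with ht
  have ht0 : 0 ≤ t := by positivity
  show pr P + (∑ p ∈ P, (1 : ℝ) / p) ^ (2 * c + 1) / (2 * c + 1).factorial ≤ _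
  calc pr P + (∑ p ∈ P, (1 : ℝ) / p) ^ (2 * c + 1) / (2 * c + 1).factorial
      ≤ pr P + 1 * t := by linarith
    _ ≤ pr P + pr P * Real.exp (2 * L) * t := by gcongr
    _ = pr P * (Real.exp (2 * L) * t + 1) := by ring
    _ ≤ pr P * Real.exp (Real.exp (2 * L) * t) := by
      gcongr
      exact Real.add_one_le_exp _

theorem odd_sum_le (L : ℝ) (hL : 0 ≤ L) (n : ℕ) :
    ∑ j ∈ Finset.range n, L ^ (2 * (j + 1) + 1) / ((2 * (j + 1) + 1).factorial : ℝ) ≤
      Real.exp L := by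
  refine le_trans ?_ (Real.sum_le_exp_of_nonneg hL (2 * n + 3))
  have h : ∑ j ∈ Finset.range n, L ^ (2 * (j + 1) + 1) / ((2 * (j + 1) + 1).factorial : ℝ) =
      ∑ i ∈ (Finset.range n).image (fun j => 2 * (j + 1) + 1), L ^ i / (i.factorial : ℝ) := by
    rw [Finset.sum_image]
    intro a _ b _ hab
    simp only at hab
    omega
  rw [h]
  refine Finset.sum_le_sum_of_subset_of_nonneg ?_ fun i _ _ => by positivity
  intro i hi
  rw [Finset.mem_image] at hi
  obtain ⟨j, hj, rfl⟩ := hi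
  rw [Finset.mem_range] at hj ⊢
  omega

section blocks

variable (z : ℕ) (a : ℝ) (X : ℕ) (δ : ℝ)

theorem blk_prime (j : ℕ) : ∀ p ∈ blk z a X δ j, p.Prime := fun p hp => by
  unfold blk at hp
  exact (Finset.mem_filter.1 hp).2.1

/-- the ends of the blocks -/
noncomputable def YJ (X : ℕ) (δ : ℝ) (j : ℕ) : ℝ := (X : ℝ) ^ (δ / 8 / 2 ^ j)

theorem YJ_anti (hX : 1 ≤ X) (hδ : 0 < δ) {i j : ℕ} (hij : i ≤ j) : YJ X δ j ≤ YJ X δ i := by
  unfold YJ
  refine Real.rpow_le_rpow_of_exponent_le (by exact_mod_cast hX) ?_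
  have : (2 : ℝ) ^ i ≤ 2 ^ j := pow_le_pow_right₀ (by norm_num) hij
  gcongr

theorem YJ_sqrt (hX : 1 ≤ X) (j : ℕ) : YJ X δ (j + 1) = √(YJ X δ j) := by
  unfold YJ
  rw [Real.sqrt_eq_rpow, ← Real.rpow_mul (by positivity)]
  congr 1
  rw [pow_succ]
  ring

theorem YJ_one (hX : 1 ≤ X) (hδ : 0 < δ) (j : ℕ) : 1 ≤ YJ X δ j :=
  Real.one_le_rpow (by exact_mod_cast hX) (by positivity)

theorem blk_sum_le (hX : 1 ≤ X) (hδ : 0 < δ) (j : ℕ) : ∑ p ∈ blk z a X δ j, (1 : ℝ) / p ≤ 8 := by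
  refine le_trans ?_ (sqrt_sum_le (YJ X δ j) (YJ_one X δ hX hδ j))
  refine Finset.sum_le_sum_of_subset_of_nonneg ?_ fun i _ _ => by positivity
  intro p hp
  unfold blk at hp
  rw [Finset.mem_filter] at hp
  rw [Finset.mem_filter, ← YJ_sqrt X δ hX]
  exact ⟨hp.1, hp.2.1⟩

theorem blk_disj (hX : 1 ≤ X) (hδ : 0 < δ) {i j : ℕ} (hij : i ≠ j) :
    Disjoint (blk z a X δ i) (blk z a X δ j) := by
  have key : ∀ i j : ℕ, i < j → Disjoint (blk z a X δ i) (blk z a X δ j) := by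
    intro i j hij
    rw [Finset.disjoint_left]
    intro p hp hp'
    unfold blk at hp hp'
    rw [Finset.mem_filter, Finset.mem_Ioc] at hp hp'
    have h1 : ⌊YJ X δ j⌋₊ ≤ ⌊YJ X δ (i + 1)⌋₊ := Nat.floor_mono (YJ_anti X δ hX hδ hij)
    have h2 : ⌊YJ X δ (i + 1)⌋₊ < p := hp.1.1
    have h3 : p ≤ ⌊YJ X δ j⌋₊ := hp'.1.2
    omega
  rcases lt_or_gt_of_ne hij with h | h
  · exact key i j h
  · exact (key j i h).symm

theorem log_lt_two_pow (hX : 1 ≤ X) : Real.log X ≤ 2 ^ X := by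
  have h1 : Real.log X ≤ X := by
    have := Real.log_le_sub_one_of_pos (x := (X : ℝ)) (by exact_mod_cast hX)
    linarith
  have h2 : (X : ℝ) ≤ 2 ^ X := by exact_mod_cast Nat.lt_two_pow_self.le
  linarith

theorem YJ_last (hX : 1 ≤ X) (hδ : 0 < δ) (hδ1 : δ ≤ 1) : ⌊YJ X δ X⌋₊ < 2 := by
  rw [Nat.floor_lt (by linarith [YJ_one X δ hX hδ X])]
  unfold YJ
  have hX0 : (0 : ℝ) < X := by exact_mod_cast hX
  have h1 := log_lt_two_pow X hX
  have h2 : (X : ℝ) ^ (δ / 8 / 2 ^ X) = Real.exp (Real.log X * (δ / 8 / 2 ^ X)) :=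
    Real.rpow_def_of_pos hX0 _
  rw [h2]
  have h3 : Real.log X * (δ / 8 / 2 ^ X) ≤ 1 / 8 := by
    rw [div_div, ← mul_div_assoc, div_le_div_iff₀ (by positivity) (by norm_num)]
    have h4 : 0 ≤ Real.log X := Real.log_nonneg (by exact_mod_cast hX)
    nlinarith
  calc Real.exp (Real.log X * (δ / 8 / 2 ^ X)) ≤ Real.exp (1 / 8) := Real.exp_le_exp.2 h3
    _ < 2 := by
      have := Real.exp_bound_div_one_sub_of_interval (x := 1 / 8) (by norm_num) (by norm_num)
      refine this.trans_lt ?_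
      norm_num
    _ = ((2 : ℕ) : ℝ) := by norm_num

/-- all primes of the blocks -/
noncomputable def UB : Finset ℕ := (Finset.range X).biUnion (blk z a X δ)

theorem UB_eq (hX : 1 ≤ X) (hδ : 0 < δ) (hδ1 : δ ≤ 1) : UB z a X δ =
    (Finset.Icc 2 ⌊(X : ℝ) ^ (δ / 8)⌋₊).filter (fun p => p.Prime ∧ z < p ∧ p ∉ PA a X) := by
  ext p
  unfold UB
  rw [Finset.mem_biUnion, Finset.mem_filter, Finset.mem_Icc]
  have h0 : YJ X δ 0 = (X : ℝ) ^ (δ / 8) := by unfold YJ; simp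
  constructor
  · rintro ⟨j, _, hp⟩
    unfold blk at hp
    rw [Finset.mem_filter, Finset.mem_Ioc] at hp
    refine ⟨⟨hp.2.1.two_le, ?_⟩, hp.2⟩
    rw [← h0]
    exact hp.1.2.trans (Nat.floor_mono (YJ_anti X δ hX hδ (Nat.zero_le j)))
  · rintro ⟨⟨h1, h2⟩, h3⟩
    have hlast := YJ_last X δ hX hδ hδ1
    have hex : ∃ j, ⌊YJ X δ j⌋₊ < p := ⟨X, by omega⟩
    have hf := Nat.find_spec hex
    have hfX : Nat.find hex ≤ X := Nat.find_min' hex (by omega)
    have hf0 : Nat.find hex ≠ 0 := by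
      intro h
      rw [h, h0] at hf
      omega
    obtain ⟨j, hj⟩ := Nat.exists_eq_succ_of_ne_zero hf0
    have hjX : j < X := by omega
    have hmin := Nat.find_min hex (m := j) (by omega)
    rw [hj] at hf
    refine ⟨j, Finset.mem_range.2 hjX, ?_⟩
    unfold blk
    rw [Finset.mem_filter, Finset.mem_Ioc]
    exact ⟨⟨hf, not_lt.1 hmin⟩, h3⟩

theorem UB_prime : ∀ p ∈ UB z a X δ, p.Prime := fun p hp => by
  unfold UB at hp
  rw [Finset.mem_biUnion] at hp
  obtain ⟨j, _, hj⟩ := hp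
  exact blk_prime z a X δ j p hj

theorem pr_UB (hX : 1 ≤ X) (hδ : 0 < δ) :
    pr (UB z a X δ) = ∏ j ∈ Finset.range X, pr (blk z a X δ j) := by
  unfold pr UB
  rw [Finset.prod_biUnion]
  intro i _ j _ hij
  exact blk_disj z a X δ hX hδ hij

theorem GG_rhoX (hz : 2 ≤ z) (hX : 1 ≤ X) (hδ : 0 < δ) (hδ1 : δ ≤ 1) :
    GG X (rhoX z a X δ) = ∏ j ∈ Finset.range X, GJ (blk z a X δ j) (j + 1) := by
  refine GG_eq X X (blk z a X δ) (fun j => j + 1) (fun j _ => blk_prime z a X δ j)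
    (fun i _ j _ hij => blk_disj z a X δ hX hδ hij) fun d hd => ?_
  have h1 := T2_BHa z a X δ d hz hX hδ hd
  have h2 : (X : ℝ) ^ δ ≤ (X : ℝ) ^ (1 : ℝ) :=
    Real.rpow_le_rpow_of_exponent_le (by exact_mod_cast hX) hδ1
  rw [Real.rpow_one] at h2
  exact_mod_cast h1.trans h2

theorem GG_bounds (hz : 2 ≤ z) (hX : 1 ≤ X) (hδ : 0 < δ) (hδ1 : δ ≤ 1) :
    pr (UB z a X δ) ≤ GG X (rhoX z a X δ) ∧
    GG X (rhoX z a X δ) ≤ pr (UB z a X δ) * Real.exp (Real.exp 16 * Real.exp 8) := by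
  rw [GG_rhoX z a X δ hz hX hδ hδ1, pr_UB z a X δ hX hδ]
  have h : ∀ j, pr (blk z a X δ j) ≤ GJ (blk z a X δ j) (j + 1) ∧
      GJ (blk z a X δ j) (j + 1) ≤ pr (blk z a X δ j) *
        Real.exp (Real.exp 16 * (8 ^ (2 * (j + 1) + 1) / (2 * (j + 1) + 1).factorial)) := by
    intro j
    have := GJ_le (blk z a X δ j) (j + 1) 8 (blk_prime z a X δ j) (blk_sum_le z a X δ hX hδ j)
      (by norm_num)
    norm_num at this ⊢
    exact this
  have h0 : ∀ j, 0 < pr (blk z a X δ j) := fun j => pr_pos _ (blk_prime z a X δ j)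
  refine ⟨Finset.prod_le_prod (fun j _ => (h0 j).le) fun j _ => (h j).1, ?_⟩
  refine (Finset.prod_le_prod (fun j _ => (h0 j).le.trans (h j).1) fun j _ => (h j).2).trans ?_
  rw [Finset.prod_mul_distrib, ← Real.exp_sum, ← Finset.mul_sum]
  have h1 : 0 ≤ ∏ j ∈ Finset.range X, pr (blk z a X δ j) :=
    Finset.prod_nonneg fun j _ => (h0 j).le
  refine mul_le_mul_of_nonneg_left (Real.exp_le_exp.2 ?_) h1
  exact mul_le_mul_of_nonneg_left (odd_sum_le 8 (by norm_num) X) (Real.exp_pos _).le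

end blocks

theorem pr_split (z : ℕ) (a : ℝ) (X : ℕ) (δ : ℝ) (hz : 2 ≤ z) (hX : 1 ≤ X) (hδ : 0 < δ)
    (hδ1 : δ ≤ 1) (hN : z ≤ ⌊(X : ℝ) ^ (δ / 8)⌋₊) :
    pr (UB z a X δ) * pr ((Finset.Icc 3 z).filter Nat.Prime) ≤
      2 * Real.exp 2 / Real.log ⌊(X : ℝ) ^ (δ / 8)⌋₊ := by
  set N := ⌊(X : ℝ) ^ (δ / 8)⌋₊ with hNdef
  set R := (Finset.Icc 2 N).filter (fun p => p.Prime ∧ z < p ∧ p ∈ PA a X) with hR
  have hA : (Finset.Icc 2 N).filter Nat.Prime =
      (({2} ∪ (Finset.Icc 3 z).filter Nat.Prime) ∪ UB z a X δ) ∪ R := by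
    rw [UB_eq z a X δ hX hδ hδ1, hR]
    ext p
    simp only [Finset.mem_union, Finset.mem_filter, Finset.mem_Icc, Finset.mem_singleton]
    constructor
    · rintro ⟨⟨h1, h2⟩, h3⟩
      by_cases h4 : z < p
      · by_cases h5 : p ∈ PA a X
        · exact Or.inr ⟨⟨h1, h2⟩, h3, h4, h5⟩
        · exact Or.inl (Or.inr ⟨⟨h1, h2⟩, h3, h4, h5⟩)
      · by_cases h5 : p = 2
        · exact Or.inl (Or.inl (Or.inl h5))
        · exact Or.inl (Or.inl (Or.inr ⟨⟨by omega, by omega⟩, h3⟩))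
    · rintro (((h | h) | h) | h)
      · subst h
        exact ⟨⟨le_rfl, by omega⟩, Nat.prime_two⟩
      · exact ⟨⟨by omega, by omega⟩, h.2⟩
      · exact ⟨h.1, h.2.1⟩
      · exact ⟨h.1, h.2.1⟩
  have hRp : ∀ p ∈ R, p.Prime := fun p hp => (Finset.mem_filter.1 hp).2.1
  have hTp : ∀ p ∈ (Finset.Icc 3 z).filter Nat.Prime, p.Prime := fun p hp =>
    (Finset.mem_filter.1 hp).2
  have hUp := UB_prime z a X δ
  have hprod : pr ((Finset.Icc 2 N).filter Nat.Prime) =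
      (1 / 2) * pr ((Finset.Icc 3 z).filter Nat.Prime) * pr (UB z a X δ) * pr R := by
    rw [hA]
    unfold pr
    rw [Finset.prod_union, Finset.prod_union, Finset.prod_union, Finset.prod_singleton]
    · norm_num
    · rw [Finset.disjoint_left]
      intro p hp hp'
      rw [Finset.mem_singleton] at hp
      rw [Finset.mem_filter, Finset.mem_Icc] at hp'
      omega
    · rw [Finset.disjoint_left]
      intro p hp hp'
      rw [UB_eq z a X δ hX hδ hδ1, Finset.mem_filter] at hp'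
      rw [Finset.mem_union, Finset.mem_singleton, Finset.mem_filter, Finset.mem_Icc] at hp
      rcases hp with hp | hp <;> omega
    · rw [Finset.disjoint_left]
      intro p hp hp'
      rw [hR, Finset.mem_filter] at hp'
      rw [Finset.mem_union, Finset.mem_union, Finset.mem_singleton, Finset.mem_filter,
        Finset.mem_Icc, UB_eq z a X δ hX hδ hδ1, Finset.mem_filter] at hp
      rcases hp with (hp | hp) | hp
      · omega
      · omega
      · exact hp.2.2.2 hp'.2.2.2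
  have hRge : Real.exp (-2) ≤ pr R := by
    have := pr_ge R 1 hRp (by
      refine le_trans ?_ (PP_sum_le (yA a X))
      refine Finset.sum_le_sum_of_subset_of_nonneg ?_ fun i _ _ => by positivity
      intro p hp
      exact (Finset.mem_filter.1 hp).2.2.2)
    norm_num at this
    exact this
  have hmp := T2_MP N (by omega)
  have hmp' : pr ((Finset.Icc 2 N).filter Nat.Prime) ≤ 1 / Real.log N := hmp
  rw [hprod] at hmp'
  have h0 : 0 < pr ((Finset.Icc 3 z).filter Nat.Prime) * pr (UB z a X δ) :=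
    mul_pos (pr_pos _ hTp) (pr_pos _ hUp)
  have h1 : (1 : ℝ) ≤ Real.exp 2 * pr R := by
    calc (1 : ℝ) = Real.exp 2 * Real.exp (-2) := by rw [← Real.exp_add]; simp
      _ ≤ Real.exp 2 * pr R := by gcongr
  calc pr (UB z a X δ) * pr ((Finset.Icc 3 z).filter Nat.Prime)
      ≤ (pr (UB z a X δ) * pr ((Finset.Icc 3 z).filter Nat.Prime)) * (Real.exp 2 * pr R) := by
        refine le_mul_of_one_le_right ?_ h1
        rw [mul_comm]
        exact h0.le
    _ = 2 * Real.exp 2 * ((1 / 2) * pr ((Finset.Icc 3 z).filter Nat.Prime) *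
        pr (UB z a X δ) * pr R) := by ring
    _ ≤ 2 * Real.exp 2 * (1 / Real.log N) := by gcongr
    _ = 2 * Real.exp 2 / Real.log N := by ring

theorem T2_BHc : P2_BHc := by
  intro δ hδ hδ1
  obtain ⟨C, hC⟩ := Pool.Agent.Helper601.Mertens.mertens_inv
  set K : ℝ := Real.exp (Real.exp 16 * Real.exp 8) * (2 * Real.exp 2) * (16 / δ) with hK
  have hK0 : 0 ≤ K := by positivity
  refine ⟨⌈K⌉₊ + 3, by omega, fun z hz a ha => ?_⟩
  have ht : Tendsto (fun X : ℕ => (X : ℝ) ^ (δ / 16)) atTop atTop :=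
    (tendsto_rpow_atTop (by positivity)).comp tendsto_natCast_atTop_atTop
  have hl : Tendsto (fun X : ℕ => Real.log X) atTop atTop :=
    Real.tendsto_log_atTop.comp tendsto_natCast_atTop_atTop
  obtain ⟨X0, hX0⟩ := Filter.eventually_atTop.1
    ((ht.eventually_ge_atTop ((z : ℝ) + 2)).and ((hl.eventually_ge_atTop
      (max 1 (Real.exp (2 * C)))).and (Filter.eventually_ge_atTop 3)))
  refine ⟨X0, fun X hX => ?_⟩
  obtain ⟨h1, h2, h3⟩ := hX0 X hX
  have hX1 : 1 ≤ X := by omega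
  have hXr : (0 : ℝ) < X := by exact_mod_cast hX1
  have hlog1 : 1 ≤ Real.log X := (le_max_left _ _).trans h2
  have hlogC : Real.exp (2 * C) ≤ Real.log X := (le_max_right _ _).trans h2
  obtain ⟨hG1, hG2⟩ := GG_bounds z a X δ hz hX1 hδ hδ1
  constructor
  · -- lower bound
    refine le_trans ?_ hG1
    have hsub : UB z a X δ ⊆ (Finset.Icc 1 X).filter Nat.Prime := by
      intro p hp
      rw [UB_eq z a X δ hX1 hδ hδ1, Finset.mem_filter, Finset.mem_Icc] at hp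
      rw [Finset.mem_filter, Finset.mem_Icc]
      refine ⟨⟨by omega, hp.1.2.trans ?_⟩, hp.2.1⟩
      refine (Nat.floor_mono (Real.rpow_le_rpow_of_exponent_le (by exact_mod_cast hX1)
        (by linarith : δ / 8 ≤ 1))).trans ?_
      rw [Real.rpow_one, Nat.floor_natCast]
    refine le_trans ?_ (pr_anti _ _ hsub fun p hp => (Finset.mem_filter.1 hp).2)
    have hm := hC X h3
    rw [abs_le] at hm
    refine le_trans ?_ (pr_ge _ (Real.log (Real.log X) + C)
      (fun p hp => (Finset.mem_filter.1 hp).2) (by linarith [hm.2]))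
    have e : Real.exp (-(2 * (Real.log (Real.log X) + C))) =
        ((Real.log X) ^ 2 * Real.exp (2 * C))⁻¹ := by
      rw [← Real.exp_log (show 0 < (Real.log X) ^ 2 * Real.exp (2 * C) by positivity),
        ← Real.exp_neg, Real.log_mul (by positivity) (Real.exp_pos _).ne', Real.log_exp,
        Real.log_pow]
      congr 1
      push_cast
      ring
    rw [e]
    refine inv_anti₀ (by positivity) ?_
    calc (Real.log X) ^ 2 * Real.exp (2 * C) ≤ (Real.log X) ^ 2 * Real.log X := by gcongr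
      _ = (Real.log X) ^ 3 := by ring
      _ ≤ (Real.log X) ^ (⌈K⌉₊ + 3) := pow_le_pow_right₀ hlog1 (by omega)
  · -- upper bound
    have hfl : (X : ℝ) ^ (δ / 16) ≤ ⌊(X : ℝ) ^ (δ / 8)⌋₊ := by
      have h4 : (X : ℝ) ^ (δ / 8) = (X : ℝ) ^ (δ / 16) * (X : ℝ) ^ (δ / 16) := by
        rw [← Real.rpow_add hXr]
        congr 1
        ring
      have h5 := Nat.lt_floor_add_one ((X : ℝ) ^ (δ / 8))
      have h6 : (2 : ℝ) ≤ (X : ℝ) ^ (δ / 16) := by
        have : (0 : ℝ) ≤ z := by positivity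
        linarith
      nlinarith
    have hN : z ≤ ⌊(X : ℝ) ^ (δ / 8)⌋₊ := by
      have : (z : ℝ) ≤ ⌊(X : ℝ) ^ (δ / 8)⌋₊ := by linarith
      exact_mod_cast this
    have hs := pr_split z a X δ hz hX1 hδ hδ1 hN
    have hlN : δ / 16 * Real.log X ≤ Real.log ⌊(X : ℝ) ^ (δ / 8)⌋₊ := by
      rw [← Real.log_rpow hXr]
      exact Real.log_le_log (by positivity) hfl
    have h0 : 0 < pr ((Finset.Icc 3 z).filter Nat.Prime) :=
      pr_pos _ fun p hp => (Finset.mem_filter.1 hp).2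
    have hlX : 0 < Real.log X := by linarith
    show GG X (rhoX z a X δ) * pr ((Finset.Icc 3 z).filter Nat.Prime) ≤ _
    calc GG X (rhoX z a X δ) * pr ((Finset.Icc 3 z).filter Nat.Prime)
        ≤ (pr (UB z a X δ) * Real.exp (Real.exp 16 * Real.exp 8)) *
          pr ((Finset.Icc 3 z).filter Nat.Prime) := by gcongr
      _ = Real.exp (Real.exp 16 * Real.exp 8) *
          (pr (UB z a X δ) * pr ((Finset.Icc 3 z).filter Nat.Prime)) := by ring
      _ ≤ Real.exp (Real.exp 16 * Real.exp 8) *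
          (2 * Real.exp 2 / Real.log ⌊(X : ℝ) ^ (δ / 8)⌋₊) := by gcongr
      _ ≤ Real.exp (Real.exp 16 * Real.exp 8) * (2 * Real.exp 2 / (δ / 16 * Real.log X)) := by
          gcongr
      _ = K / Real.log X := by
          rw [hK]
          field_simp
      _ ≤ ((⌈K⌉₊ + 3 : ℕ) : ℝ) / Real.log X := by
          gcongr
          push_cast
          linarith [Nat.le_ceil K]

end Run7.h67.CG
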