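import Pool.Agent.Run7.h67.CG.BF

/-!
# Block sieve weights (pieces HB and HD of h784_pieces)
-/

set_option autoImplicit false

namespace Run7.h67.CG

open Finset Filter Pool.Agent.H38R2.CG Pool.Agent.H38R2.CG2
open scoped Classical

/-- the union of the first blocks -/
noncomputable def UU (B : ℕ → Finset ℕ) (J : ℕ) : Finset ℕ := (Finset.range J).biUnion B

theorem UU_succ (B : ℕ → Finset ℕ) (J : ℕ) : UU B (J + 1) = UU B J ∪ B J := by
  unfold UU
  rw [Finset.range_add_one, Finset.biUnion_insert, Finset.union_comm]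

theorem mem_UU {B : ℕ → Finset ℕ} {J p : ℕ} : p ∈ UU B J ↔ ∃ j < J, p ∈ B j := by
  unfold UU
  simp

/-- admissible sets -/
noncomputable def FF (B : ℕ → Finset ℕ) (b : ℕ → ℕ) (J : ℕ) : Finset (Finset ℕ) :=
  (UU B J).powerset.filter (fun A => ∀ j < J, (A ∩ B j).card ≤ 2 * b j)

theorem block_sum (B : ℕ → Finset ℕ) (b : ℕ → ℕ) (w : ℕ → Finset ℕ → ℝ) (J : ℕ) :
    (∀ i < J, ∀ j < J, i ≠ j → Disjoint (B i) (B j)) →
    ∑ A ∈ FF B b J, ∏ j ∈ Finset.range J, w j (A ∩ B j) =
      ∏ j ∈ Finset.range J, ∑ A ∈ (B j).powerset.filter (fun A => A.card ≤ 2 * b j), w j A := by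
  induction J with
  | zero =>
    intro _
    have : FF B b 0 = {∅} := by
      unfold FF UU
      ext A
      simp
    rw [this]
    simp
  | succ J ih =>
    intro hd
    have hd' : ∀ j < J, Disjoint (B j) (B J) := fun j hj =>
      hd j (by omega) J (by omega) (by omega)
    have hUJ : Disjoint (UU B J) (B J) := by
      rw [Finset.disjoint_left]
      intro p hp hp'
      obtain ⟨j, hj, hpj⟩ := mem_UU.1 hp
      exact Finset.disjoint_left.1 (hd' j hj) hpj hp'
    rw [Finset.prod_range_succ, ← ih (fun i hi j hj => hd i (by omega) j (by omega)),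
      Finset.sum_mul_sum, ← Finset.sum_product']
    have hBU : ∀ j < J, B j ⊆ UU B J := fun j hj p hp => mem_UU.2 ⟨j, hj, hp⟩
    refine Finset.sum_nbij' (fun A => (A ∩ UU B J, A ∩ B J)) (fun q => q.1 ∪ q.2) ?_ ?_ ?_ ?_ ?_
    · intro A hA
      unfold FF at hA ⊢
      rw [Finset.mem_filter, Finset.mem_powerset] at hA
      rw [Finset.mem_product, Finset.mem_filter, Finset.mem_filter, Finset.mem_powerset,
        Finset.mem_powerset]
      refine ⟨⟨Finset.inter_subset_right, fun j hj => ?_⟩, Finset.inter_subset_right,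
        hA.2 J (by omega)⟩
      rw [Finset.inter_assoc, Finset.inter_eq_right.2 (hBU j hj)]
      exact hA.2 j (by omega)
    · rintro ⟨A', A''⟩ h
      unfold FF at h ⊢
      rw [Finset.mem_product, Finset.mem_filter, Finset.mem_filter, Finset.mem_powerset,
        Finset.mem_powerset] at h
      obtain ⟨⟨h1, h2⟩, h3, h4⟩ := h
      simp only at h1 h2 h3 h4
      rw [Finset.mem_filter, Finset.mem_powerset, UU_succ]
      refine ⟨Finset.union_subset_union h1 h3, fun j hj => ?_⟩
      rcases Nat.lt_or_ge j J with hj' | hj'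
      · have e : (A' ∪ A'') ∩ B j = A' ∩ B j := by
          rw [Finset.union_inter_distrib_right, Finset.disjoint_iff_inter_eq_empty.1
            ((hd' j hj').symm.mono_left h3), Finset.union_empty]
        rw [e]
        exact h2 j hj'
      · have hjJ : j = J := by omega
        subst hjJ
        have e : (A' ∪ A'') ∩ B j = A'' := by
          rw [Finset.union_inter_distrib_right, Finset.disjoint_iff_inter_eq_empty.1
            (hUJ.mono_left h1), Finset.empty_union, Finset.inter_eq_left.2 h3]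
        rw [e]
        exact h4
    · intro A hA
      unfold FF at hA
      rw [Finset.mem_filter, Finset.mem_powerset, UU_succ] at hA
      show (A ∩ UU B J) ∪ (A ∩ B J) = A
      rw [← Finset.inter_union_distrib_left, Finset.inter_eq_left.2 hA.1]
    · rintro ⟨A', A''⟩ h
      unfold FF at h
      rw [Finset.mem_product, Finset.mem_filter, Finset.mem_filter, Finset.mem_powerset,
        Finset.mem_powerset] at h
      obtain ⟨⟨h1, h2⟩, h3, h4⟩ := h
      simp only at h1 h2 h3 h4
      show ((A' ∪ A'') ∩ UU B J, (A' ∪ A'') ∩ B J) = (A', A'')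
      rw [Finset.union_inter_distrib_right, Finset.union_inter_distrib_right,
        Finset.inter_eq_left.2 h1, Finset.inter_eq_left.2 h3,
        Finset.disjoint_iff_inter_eq_empty.1 (hUJ.symm.mono_left h3),
        Finset.disjoint_iff_inter_eq_empty.1 (hUJ.mono_left h1), Finset.union_empty,
        Finset.empty_union]
    · intro A hA
      rw [Finset.prod_range_succ]
      congr 1
      refine Finset.prod_congr rfl fun j hj => ?_
      rw [Finset.mem_range] at hj
      show w j (A ∩ B j) = w j ((A ∩ UU B J) ∩ B j)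
      rw [Finset.inter_assoc, Finset.inter_eq_right.2 (hBU j hj)]

/-- admissible numbers -/
def Cond (J : ℕ) (B : ℕ → Finset ℕ) (b : ℕ → ℕ) (d : ℕ) : Prop :=
  Squarefree d ∧ (∀ p ∈ d.primeFactors, ∃ j < J, p ∈ B j) ∧
      (∀ j < J, (d.primeFactors ∩ B j).card ≤ 2 * b j)

theorem rhoB_eq (J : ℕ) (B : ℕ → Finset ℕ) (b : ℕ → ℕ) (d : ℕ) :
    rhoB J B b d = if Cond J B b d then (-1 : ℝ) ^ d.primeFactors.card else 0 := by
  by_cases h : Cond J B b d
  · rw [if_pos h]
    exact if_pos h
  · rw [if_neg h]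
    exact if_neg h

theorem rhoB_ne (J : ℕ) (B : ℕ → Finset ℕ) (b : ℕ → ℕ) (d : ℕ) :
    rhoB J B b d ≠ 0 ↔ Cond J B b d := by
  rw [rhoB_eq]
  by_cases h : Cond J B b d
  · rw [if_pos h]
    simp [h]
  · rw [if_neg h]
    simp [h]

theorem num_sum (B : ℕ → Finset ℕ) (b : ℕ → ℕ) (w : ℕ → Finset ℕ → ℝ) (J X : ℕ)
    (hp : ∀ j < J, ∀ p ∈ B j, p.Prime)
    (hd : ∀ i < J, ∀ j < J, i ≠ j → Disjoint (B i) (B j))
    (hX : ∀ d, Cond J B b d → d ≤ X) :
    ∑ d ∈ Finset.Icc 1 X, (if Cond J B b d then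
      ∏ j ∈ Finset.range J, w j (d.primeFactors ∩ B j) else 0) =
      ∏ j ∈ Finset.range J, ∑ A ∈ (B j).powerset.filter (fun A => A.card ≤ 2 * b j), w j A := by
  rw [← block_sum B b w J hd, ← Finset.sum_filter]
  refine Finset.sum_nbij' (fun d => d.primeFactors) (fun A => ∏ p ∈ A, p) ?_ ?_ ?_ ?_ ?_
  · intro d hd'
    rw [Finset.mem_filter] at hd'
    unfold FF
    rw [Finset.mem_filter, Finset.mem_powerset]
    exact ⟨fun p hp' => mem_UU.2 (hd'.2.2.1 p hp'), hd'.2.2.2⟩
  · intro A hA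
    unfold FF at hA
    rw [Finset.mem_filter, Finset.mem_powerset] at hA
    have hAp : ∀ p ∈ A, p.Prime := fun p hpA => by
      obtain ⟨j, hj, hpj⟩ := mem_UU.1 (hA.1 hpA)
      exact hp j hj p hpj
    have hpf : (∏ p ∈ A, p).primeFactors = A := Nat.primeFactors_prod hAp
    have hc : Cond J B b (∏ p ∈ A, p) := by
      refine ⟨?_, ?_, ?_⟩
      · exact Finset.squarefree_prod_of_pairwise_isCoprime (fun p hpA q hqA hpq => by
          show IsRelPrime p q
          rw [← Nat.coprime_iff_isRelPrime]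
          exact (Nat.coprime_primes (hAp p hpA) (hAp q hqA)).2 hpq)
          fun p hpA => (hAp p hpA).squarefree
      · rw [hpf]
        exact fun p hpA => mem_UU.1 (hA.1 hpA)
      · rw [hpf]
        exact hA.2
    rw [Finset.mem_filter, Finset.mem_Icc]
    exact ⟨⟨Nat.one_le_iff_ne_zero.2 hc.1.ne_zero, hX _ hc⟩, hc⟩
  · intro d hd'
    rw [Finset.mem_filter] at hd'
    exact Nat.prod_primeFactors_of_squarefree hd'.2.1
  · intro A hA
    unfold FF at hA
    rw [Finset.mem_filter, Finset.mem_powerset] at hA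
    refine Nat.primeFactors_prod fun p hpA => ?_
    obtain ⟨j, hj, hpj⟩ := mem_UU.1 (hA.1 hpA)
    exact hp j hj p hpj
  · intro d _
    rfl

/-- products over blocks -/
theorem prod_blocks (B : ℕ → Finset ℕ) (J : ℕ) (S : Finset ℕ) (f : ℕ → ℝ)
    (hd : ∀ i < J, ∀ j < J, i ≠ j → Disjoint (B i) (B j))
    (hS : ∀ p ∈ S, ∃ j < J, p ∈ B j) :
    ∏ p ∈ S, f p = ∏ j ∈ Finset.range J, ∏ p ∈ S ∩ B j, f p := by
  rw [← Finset.prod_biUnion]
  · congr 1
    ext p
    rw [Finset.mem_biUnion]
    constructor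
    · intro h
      obtain ⟨j, hj, hpj⟩ := hS p h
      exact ⟨j, Finset.mem_range.2 hj, Finset.mem_inter.2 ⟨h, hpj⟩⟩
    · rintro ⟨j, _, h⟩
      exact (Finset.mem_inter.1 h).1
  · intro i hi j hj hij
    rw [Finset.mem_coe, Finset.mem_range] at hi hj
    exact (hd i hi j hj hij).mono Finset.inter_subset_right Finset.inter_subset_right

theorem T2_HB : P2_HB := by
  intro J X B b x hp hd hX
  have h := num_sum B b (fun _ A => ∏ p ∈ A, (-x p)) J X hp hd
    (fun d hd' => hX d ((rhoB_ne J B b d).2 hd'))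
  have e : ∀ A : Finset ℕ, ∏ p ∈ A, (-x p) = (-1 : ℝ) ^ A.card * ∏ p ∈ A, x p := by
    intro A
    rw [Finset.prod_neg]
  simp only [e] at h
  rw [← h]
  refine Finset.sum_congr rfl fun d _ => ?_
  rw [rhoB_eq]
  by_cases hc : Cond J B b d
  · rw [if_pos hc, if_pos hc, ← e, prod_blocks B J _ _ hd hc.2.1]
    exact Finset.prod_congr rfl fun j _ => e _
  · rw [if_neg hc, if_neg hc, zero_mul]

end Run7.h67.CG
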