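import Pool.Agent.Run7.h67.CG.HB

/-!
# Sums of the block weights over multiples (piece HD of h784_pieces)
-/

set_option autoImplicit false

namespace Run7.h67.CG

open Finset Filter Pool.Agent.H38R2.CG Pool.Agent.H38R2.CG2
open scoped Classical

theorem exp_neg_two (t : ℝ) (h0 : 0 ≤ t) (h1 : t ≤ 1 / 2) : Real.exp (-(2 * t)) ≤ 1 - t := by
  have h2 : 1 + 2 * t ≤ Real.exp (2 * t) := by linarith [Real.add_one_le_exp (2 * t)]
  rw [Real.exp_neg, inv_le_comm₀ (Real.exp_pos _) (by linarith)]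
  refine le_trans ?_ h2
  rw [inv_le_iff_one_le_mul₀ (by linarith)]
  nlinarith

/-- a block factor with no condition -/
noncomputable def GJ (P : Finset ℕ) (c : ℕ) : ℝ :=
  ∑ A ∈ P.powerset.filter (fun A => A.card ≤ 2 * c), (-1 : ℝ) ^ A.card * ∏ p ∈ A, ((1 : ℝ) / p)

theorem GJ_ge (P : Finset ℕ) (c : ℕ) (L : ℝ) (hP : ∀ p ∈ P, p.Prime)
    (hL : ∑ p ∈ P, (1 : ℝ) / p ≤ L) : Real.exp (-(2 * L)) ≤ GJ P c := by
  have h1 : ∀ p ∈ P, 0 ≤ (1 : ℝ) / p ∧ (1 : ℝ) / p ≤ 1 / 2 := fun p hp => by
    have h2 : (2 : ℝ) ≤ p := by exact_mod_cast (hP p hp).two_le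
    refine ⟨by positivity, ?_⟩
    exact one_div_le_one_div_of_le (by norm_num) h2
  have h2 := (T2_BF P (fun p => (1 : ℝ) / p) c
    (fun p hp => ⟨(h1 p hp).1, (h1 p hp).2.trans (by norm_num)⟩)).1
  refine le_trans ?_ h2
  calc Real.exp (-(2 * L)) ≤ Real.exp (-(2 * ∑ p ∈ P, (1 : ℝ) / p)) := by
        apply Real.exp_le_exp.2
        linarith
    _ = ∏ p ∈ P, Real.exp (-(2 * ((1 : ℝ) / p))) := by
        rw [← Real.exp_sum, Finset.mul_sum, ← Finset.sum_neg_distrib]
    _ ≤ ∏ p ∈ P, (1 - (1 : ℝ) / p) :=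
        Finset.prod_le_prod (fun p _ => (Real.exp_pos _).le)
          fun p hp => exp_neg_two _ (h1 p hp).1 (h1 p hp).2

/-- a block factor with the condition that the set contains `S` -/
theorem block_le (P S : Finset ℕ) (c : ℕ) (L : ℝ) (hSP : S ⊆ P)
    (hL : ∑ p ∈ P, (1 : ℝ) / p ≤ L) :
    |∑ A ∈ P.powerset.filter (fun A => A.card ≤ 2 * c),
      (if S ⊆ A then ∏ p ∈ A, (-((1 : ℝ) / p)) else 0)| ≤
      (∏ p ∈ S, (1 : ℝ) / p) * Real.exp L := by
  have h1 : |∑ A ∈ P.powerset.filter (fun A => A.card ≤ 2 * c),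
      (if S ⊆ A then ∏ p ∈ A, (-((1 : ℝ) / p)) else 0)| ≤
      ∑ A ∈ P.powerset, (if S ⊆ A then ∏ p ∈ A, ((1 : ℝ) / p) else 0) := by
    refine (Finset.abs_sum_le_sum_abs _ _).trans ?_
    refine (Finset.sum_le_sum_of_subset_of_nonneg (Finset.filter_subset _ _)
      (fun A _ _ => abs_nonneg _)).trans (Finset.sum_le_sum fun A _ => ?_)
    by_cases h : S ⊆ A
    · rw [if_pos h, if_pos h, Finset.abs_prod]
      refine le_of_eq (Finset.prod_congr rfl fun p _ => ?_)
      rw [abs_neg, abs_of_nonneg (by positivity)]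
    · rw [if_neg h, if_neg h, abs_zero]
  refine h1.trans ?_
  have h2 : ∑ A ∈ P.powerset, (if S ⊆ A then ∏ p ∈ A, ((1 : ℝ) / p) else 0) =
      ∏ p ∈ P, ((1 : ℝ) / p + if p ∈ S then 0 else 1) := by
    rw [Finset.prod_add]
    refine Finset.sum_congr rfl fun A hA => ?_
    rw [Finset.mem_powerset] at hA
    by_cases h : S ⊆ A
    · rw [if_pos h]
      have : ∏ i ∈ P \ A, (if i ∈ S then (0 : ℝ) else 1) = 1 := by
        refine Finset.prod_eq_one fun i hi => ?_
        rw [Finset.mem_sdiff] at hi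
        rw [if_neg fun hs => hi.2 (h hs)]
      rw [this, mul_one]
    · rw [if_neg h]
      obtain ⟨i, hi, hiA⟩ := Finset.not_subset.1 h
      have : ∏ i ∈ P \ A, (if i ∈ S then (0 : ℝ) else 1) = 0 :=
        Finset.prod_eq_zero (Finset.mem_sdiff.2 ⟨hSP hi, hiA⟩) (if_pos hi)
      rw [this, mul_zero]
  rw [h2, ← Finset.prod_sdiff hSP, mul_comm]
  refine mul_le_mul ?_ ?_ (Finset.prod_nonneg fun p _ => ?_)
    (Finset.prod_nonneg fun p _ => by positivity)
  · refine le_of_eq (Finset.prod_congr rfl fun p hp => ?_)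
    rw [if_pos hp, add_zero]
  · calc ∏ p ∈ P \ S, ((1 : ℝ) / p + if p ∈ S then 0 else 1)
        ≤ ∏ p ∈ P \ S, Real.exp ((1 : ℝ) / p) := by
          refine Finset.prod_le_prod (fun p _ => ?_) fun p hp => ?_
          · split_ifs <;> positivity
          · rw [Finset.mem_sdiff] at hp
            rw [if_neg hp.2]
            exact Real.add_one_le_exp _
      _ = Real.exp (∑ p ∈ P \ S, (1 : ℝ) / p) := (Real.exp_sum _ _).symm
      _ ≤ Real.exp L := by
          apply Real.exp_le_exp.2
          refine le_trans ?_ hL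
          exact Finset.sum_le_sum_of_subset_of_nonneg Finset.sdiff_subset
            fun p _ _ => by positivity
  · split_ifs <;> positivity

theorem prod_inv_pf {d : ℕ} (hd : Squarefree d) :
    ∏ p ∈ d.primeFactors, ((1 : ℝ) / p) = 1 / d := by
  rw [Finset.prod_div_distrib, Finset.prod_const_one]
  congr 1
  rw [← Nat.cast_prod, Nat.prod_primeFactors_of_squarefree hd]

theorem GG_eq (J X : ℕ) (B : ℕ → Finset ℕ) (b : ℕ → ℕ) (hp : ∀ j < J, ∀ p ∈ B j, p.Prime)
    (hd : ∀ i < J, ∀ j < J, i ≠ j → Disjoint (B i) (B j))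
    (hX : ∀ d, rhoB J B b d ≠ 0 → d ≤ X) :
    GG X (rhoB J B b) = ∏ j ∈ Finset.range J, GJ (B j) (b j) := by
  have h := T2_HB J X B b (fun p => (1 : ℝ) / p) hp hd hX
  unfold GJ
  rw [← h]
  unfold GG
  refine Finset.sum_congr rfl fun d _ => ?_
  by_cases hc : rhoB J B b d = 0
  · rw [hc, zero_div, zero_mul]
  · rw [prod_inv_pf ((rhoB_ne J B b d).1 hc).1, mul_one_div]

theorem T2_HD : P2_HD := by
  intro J X B b L C0 hL0 hp hd hX hL hC g hg
  have hG : ∀ j < J, Real.exp (-(2 * L)) ≤ GJ (B j) (b j) := fun j hj =>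
    GJ_ge _ _ _ (hp j hj) (hL j hj)
  have hG0 : ∀ j ∈ Finset.range J, 0 < GJ (B j) (b j) := fun j hj =>
    (Real.exp_pos _).trans_le (hG j (Finset.mem_range.1 hj))
  have hC1 : (1 : ℝ) ≤ C0 := (Real.one_le_exp (by linarith)).trans hC
  have hgpos : (0 : ℝ) < g := by exact_mod_cast Nat.pos_of_ne_zero hg.ne_zero
  rw [GG_eq J X B b hp hd hX]
  by_cases hout : ∀ p ∈ g.primeFactors, ∃ j < J, p ∈ B j
  · -- all primes of `g` are in the blocks
    have h1 : ∑ d ∈ (Finset.Icc 1 X).filter (fun d => g ∣ d), rhoB J B b d / d =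
        ∏ j ∈ Finset.range J, ∑ A ∈ (B j).powerset.filter (fun A => A.card ≤ 2 * b j),
          (if g.primeFactors ∩ B j ⊆ A then ∏ p ∈ A, (-((1 : ℝ) / p)) else 0) := by
      rw [← num_sum B b (fun j A => if g.primeFactors ∩ B j ⊆ A then
        ∏ p ∈ A, (-((1 : ℝ) / p)) else 0) J X hp hd
        (fun d hd' => hX d ((rhoB_ne J B b d).2 hd')), Finset.sum_filter]
      refine Finset.sum_congr rfl fun d hdX => ?_
      rw [rhoB_eq]
      by_cases hc : Cond J B b d
      · rw [if_pos hc, if_pos hc]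
        have hd0 : d ≠ 0 := hc.1.ne_zero
        have hiff : g ∣ d ↔ ∀ j < J, g.primeFactors ∩ B j ⊆ d.primeFactors ∩ B j := by
          constructor
          · intro hgd j _
            exact Finset.inter_subset_inter_right (Nat.primeFactors_mono hgd hd0)
          · intro h
            have hsub : g.primeFactors ⊆ d.primeFactors := by
              intro p hpg
              obtain ⟨j, hj, hpj⟩ := hout p hpg
              exact (Finset.mem_inter.1 (h j hj (Finset.mem_inter.2 ⟨hpg, hpj⟩))).1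
            rw [← Nat.prod_primeFactors_of_squarefree hg,
              ← Nat.prod_primeFactors_of_squarefree hc.1]
            exact Finset.prod_dvd_prod_of_subset _ _ _ hsub
        by_cases hgd : g ∣ d
        · rw [if_pos hgd]
          have h2 : ∀ j ∈ Finset.range J, (if g.primeFactors ∩ B j ⊆ d.primeFactors ∩ B j then
              ∏ p ∈ d.primeFactors ∩ B j, (-((1 : ℝ) / p)) else 0) =
              ∏ p ∈ d.primeFactors ∩ B j, (-((1 : ℝ) / p)) := fun j hj =>
            if_pos (hiff.1 hgd j (Finset.mem_range.1 hj))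
          rw [Finset.prod_congr rfl h2, ← prod_blocks B J _ _ hd hc.2.1, Finset.prod_neg,
            prod_inv_pf hc.1, mul_one_div]
        · rw [if_neg hgd]
          rw [hiff] at hgd
          push Not at hgd
          obtain ⟨j, hj, hj'⟩ := hgd
          exact (Finset.prod_eq_zero (Finset.mem_range.2 hj) (if_neg hj')).symm
      · rw [if_neg hc, if_neg hc, zero_div, ite_self]
    rw [h1, Finset.abs_prod]
    have h3 : ∀ j ∈ Finset.range J,
        |∑ A ∈ (B j).powerset.filter (fun A => A.card ≤ 2 * b j),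
          (if g.primeFactors ∩ B j ⊆ A then ∏ p ∈ A, (-((1 : ℝ) / p)) else 0)| ≤
          (∏ p ∈ g.primeFactors ∩ B j, ((C0 : ℝ) * (1 / p))) * GJ (B j) (b j) := by
      intro j hj
      rw [Finset.mem_range] at hj
      by_cases he : g.primeFactors ∩ B j = ∅
      · rw [he, Finset.prod_empty, one_mul]
        have h4 : ∑ A ∈ (B j).powerset.filter (fun A => A.card ≤ 2 * b j),
          (if (∅ : Finset ℕ) ⊆ A then ∏ p ∈ A, (-((1 : ℝ) / p)) else 0) = GJ (B j) (b j) := by
          unfold GJ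
          refine Finset.sum_congr rfl fun A _ => ?_
          rw [if_pos (Finset.empty_subset _), Finset.prod_neg]
        rw [h4, abs_of_pos (hG0 j (Finset.mem_range.2 hj))]
      · refine (block_le (B j) (g.primeFactors ∩ B j) (b j) L Finset.inter_subset_right
          (hL j hj)).trans ?_
        rw [Finset.prod_mul_distrib, Finset.prod_const]
        have h5 : (C0 : ℝ) ≤ (C0 : ℝ) ^ (g.primeFactors ∩ B j).card := by
          refine le_self_pow₀ hC1 ?_
          rw [Finset.card_ne_zero]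
          exact Finset.nonempty_iff_ne_empty.2 he
        have h6 : Real.exp L ≤ C0 * GJ (B j) (b j) := by
          calc Real.exp L = Real.exp (3 * L) * Real.exp (-(2 * L)) := by
                rw [← Real.exp_add]
                congr 1
                ring
            _ ≤ C0 * GJ (B j) (b j) :=
                mul_le_mul hC (hG j hj) (Real.exp_pos _).le (by linarith)
        have h7 : (0 : ℝ) ≤ ∏ p ∈ g.primeFactors ∩ B j, ((1 : ℝ) / p) :=
          Finset.prod_nonneg fun p _ => by positivity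
        have h8 := (hG0 j (Finset.mem_range.2 hj)).le
        calc (∏ p ∈ g.primeFactors ∩ B j, ((1 : ℝ) / p)) * Real.exp L
            ≤ (∏ p ∈ g.primeFactors ∩ B j, ((1 : ℝ) / p)) * (C0 * GJ (B j) (b j)) := by gcongr
          _ ≤ (∏ p ∈ g.primeFactors ∩ B j, ((1 : ℝ) / p)) *
              ((C0 : ℝ) ^ (g.primeFactors ∩ B j).card * GJ (B j) (b j)) := by gcongr
          _ = _ := by ring
    refine (Finset.prod_le_prod (fun j _ => abs_nonneg _) h3).trans ?_
    rw [Finset.prod_mul_distrib, ← prod_blocks B J g.primeFactors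
      (fun p => (C0 : ℝ) * (1 / p)) hd hout, Finset.prod_mul_distrib, Finset.prod_const,
      prod_inv_pf hg]
    refine le_of_eq ?_
    ring
  · -- a prime of `g` is outside
    have h1 : ∑ d ∈ (Finset.Icc 1 X).filter (fun d => g ∣ d), rhoB J B b d / d = 0 := by
      refine Finset.sum_eq_zero fun d hd' => ?_
      rw [Finset.mem_filter] at hd'
      have : rhoB J B b d = 0 := by
        by_contra hne
        have hc := (rhoB_ne J B b d).1 hne
        exact hout fun p hpg => hc.2.1 p (Nat.primeFactors_mono hd'.2 hc.1.ne_zero hpg)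
      rw [this, zero_div]
    rw [h1, abs_zero]
    have := Finset.prod_nonneg fun j hj => (hG0 j hj).le
    positivity

end Run7.h67.CG
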