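import Pool.Agent.H38R2.CG2.Stubs

/-!
# Number of residues coprime to the odd primes up to `z` (piece RC of h784_pieces)
-/

set_option autoImplicit false

namespace Run7.h67.CG

open Finset Filter Pool.Agent.H38R2.CG Pool.Agent.H38R2.CG2
open scoped Classical

theorem count_coprime (N k : ℕ) :
    ((Finset.range (k * N)).filter (fun r => N.Coprime r)).card = k * N.totient := by
  induction k with
  | zero => simp
  | succ k ih =>
    have h : Finset.range ((k + 1) * N) = Finset.range (k * N) ∪ Finset.Ico (k * N) (k * N + N) := by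
      ext r
      simp only [Finset.mem_range, Finset.mem_union, Finset.mem_Ico]
      rw [add_mul, one_mul]
      omega
    rw [h, Finset.filter_union, Finset.card_union_of_disjoint, ih,
      Nat.filter_coprime_Ico_eq_totient]
    · ring
    · rw [Finset.disjoint_left]
      intro r hr hr'
      rw [Finset.mem_filter, Finset.mem_range] at hr
      rw [Finset.mem_filter, Finset.mem_Ico] at hr'
      omega

theorem T2_RC : P2_RC := by
  intro z
  set T := (Finset.Icc 3 z).filter Nat.Prime with hT
  have hTp : ∀ p ∈ T, p.Prime := fun p hp => (Finset.mem_filter.1 hp).2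
  set N := ∏ p ∈ T, p with hN
  have hpf : N.primeFactors = T := Nat.primeFactors_prod hTp
  have hN0 : N ≠ 0 := Finset.prod_ne_zero_iff.2 fun p hp => (hTp p hp).ne_zero
  have hQ : Qz z = (16 * N) * N := by
    unfold Qz
    rw [← hT, Finset.prod_pow, ← hN]
    ring
  have hiff : ∀ r : ℕ, (∀ q ∈ T, ¬ q ∣ r) ↔ N.Coprime r := by
    intro r
    rw [hN, Nat.coprime_prod_left_iff]
    refine forall₂_congr fun q hq => ?_
    rw [(hTp q hq).coprime_iff_not_dvd]
  have h1 : ∀ inst : DecidablePred (fun r => ∀ q ∈ T, ¬ q ∣ r),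
      @Finset.filter ℕ (fun r => ∀ q ∈ T, ¬ q ∣ r) inst (Finset.range (Qz z)) =
      (Finset.range (Qz z)).filter (fun r => N.Coprime r) := by
    intro inst
    ext r
    rw [Finset.mem_filter, Finset.mem_filter, hiff]
  rw [h1, hQ, count_coprime]
  have h2 := Nat.totient_eq_mul_prod_factors N
  rw [hpf] at h2
  have h3 : (N.totient : ℝ) = N * ∏ p ∈ T, (1 - (1 : ℝ) / p) := by
    have h4 : ((N.totient : ℚ) : ℝ) = ((N * ∏ p ∈ T, (1 - (p : ℚ)⁻¹) : ℚ) : ℝ) := by rw [h2]
    push_cast at h4
    simp only [one_div]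
    exact h4
  push_cast
  rw [h3]
  ring

end Run7.h67.CG
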