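import Pool.Agent.Run7.h67.CG.BH

/-!
# The main term for one `t` (piece TA of h784_pieces)
-/

set_option autoImplicit false

namespace Run7.h67.CG

open Finset Filter Pool.Agent.H38R2.CG Pool.Agent.H38R2.CG2
open scoped Classical

/-- the tail of the sum of the reciprocals of the smooth numbers -/
theorem smooth_tail (z : ℕ) (ε : ℝ) (hε : 0 < ε) : ∃ W0 : ℕ, 1 ≤ W0 ∧ ∀ T : Finset ℕ,
    (∀ w ∈ T, W0 < w ∧ w ∈ Nat.smoothNumbers (z + 1)) → ∑ w ∈ T, (1 : ℝ) / w ≤ ε := by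
  have h := (EulerProduct.summable_and_hasSum_smoothNumbers_prod_primesBelow_geometric
    (f := invF) (fun {p} hp => by
      show ‖((p : ℝ)⁻¹)‖ < 1
      rw [norm_inv, Real.norm_of_nonneg (by positivity)]
      exact inv_lt_one_of_one_lt₀ (by exact_mod_cast hp.one_lt)) (z + 1)).2.summable
  have h1 : Summable ((Nat.smoothNumbers (z + 1)).indicator (fun n : ℕ => (n : ℝ)⁻¹)) :=
    summable_subtype_iff_indicator.1 h
  rw [summable_iff_vanishing_norm] at h1
  obtain ⟨s, hs⟩ := h1 ε hε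
  refine ⟨s.sup id + 1, by omega, fun T hT => ?_⟩
  have h2 := hs T (by
    rw [Finset.disjoint_left]
    intro w hw hw'
    have h3 := (hT w hw).1
    have h4 : id w ≤ s.sup id := Finset.le_sup hw'
    simp only [id] at h4
    omega)
  have h3 : ∑ w ∈ T, (Nat.smoothNumbers (z + 1)).indicator (fun n : ℕ => (n : ℝ)⁻¹) w =
      ∑ w ∈ T, (1 : ℝ) / w := by
    refine Finset.sum_congr rfl fun w hw => ?_
    rw [Set.indicator_of_mem (hT w hw).2, one_div]
  rw [h3, Real.norm_of_nonneg (Finset.sum_nonneg fun w _ => by positivity)] at h2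
  exact h2.le

theorem yA_tendsto (a : ℝ) (ha : 2 < a) : Tendsto (fun X : ℕ => yA a X) atTop atTop := by
  unfold yA
  have hl : Tendsto (fun X : ℕ => Real.log X) atTop atTop :=
    Real.tendsto_log_atTop.comp tendsto_natCast_atTop_atTop
  have h2 : Tendsto (fun X : ℕ => (Real.log X) ^ a / 4) atTop atTop :=
    ((tendsto_rpow_atTop (by linarith)).comp hl).atTop_div_const (by norm_num)
  exact tendsto_nat_floor_atTop.comp h2

theorem qpart_dvd (z v : ℕ) (hv : 1 ≤ v) : qpart z v ∣ v := by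
  unfold qpart
  conv_rhs => rw [← Nat.prod_factorization_pow_eq_self (show v ≠ 0 by omega)]
  rw [Finsupp.prod, Nat.support_factorization]
  exact Finset.prod_dvd_prod_of_subset _ _ _ (Finset.filter_subset _ _)

theorem qpart_pos (z v : ℕ) : 1 ≤ qpart z v := by
  unfold qpart
  refine Nat.one_le_iff_ne_zero.2 (Finset.prod_ne_zero_iff.2 fun p hp => ?_)
  rw [Finset.mem_filter, Nat.mem_primeFactors] at hp
  exact pow_ne_zero _ hp.1.1.ne_zero

theorem qpart_smooth (z v p : ℕ) (hp : p.Prime) (h : p ∣ qpart z v) : p ∣ Qz z := by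
  unfold qpart at h
  obtain ⟨q, hq, h1⟩ := (Prime.dvd_finsetProd_iff hp.prime _).1 h
  rw [Finset.mem_filter, Nat.mem_primeFactors] at hq
  rw [(Nat.prime_dvd_prime_iff_eq hp hq.1.1).1 (hp.dvd_of_dvd_pow h1)]
  exact hq.2

theorem prodS_coprime (z : ℕ) (P s : Finset ℕ) (hs : s ⊆ P) (hP : ∀ p ∈ P, p.Prime ∧ ¬ p ∣ Qz z) :
    (prodS s).Coprime (Qz z) := by
  unfold prodS
  exact Nat.Coprime.prod_left fun p hp => ((hP p (hs hp)).1.coprime_iff_not_dvd).2 (hP p (hs hp)).2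

theorem T2_TA (hTE : P2_TE) (hTC : P2_TC) (h3c : P_TB3c) (h6b : P_TB6b) (h6c : P_TB6c)
    (hJP : P2_JP) (hFJ : P2_FJ) : P2_TA := by
  intro a ha z r hz hr C0 hC0 l ε hl hε
  have hfej := hFJ.2.1
  set K : ℝ := ((Qz z * 8 * 2 ^ z : ℕ) : ℝ) with hK
  have hK0 : 0 ≤ K := by positivity
  obtain ⟨W0, hW0, htail⟩ := smooth_tail z (ε / (4 * (K + 1))) (by positivity)
  have hW0r : (0 : ℝ) < W0 := by exact_mod_cast hW0
  -- the small parts
  have hTE' : ∃ X1 : ℕ, ∀ w : ℕ, 1 ≤ w → w ≤ W0 → ∀ X ≥ X1, ∀ ρ : ℕ → ℝ,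
      SWt z X (PA a X) (cc a) C0 ρ → ∀ (V : ℕ) (F : ℝ → ℝ) (I t : ℝ),
      AntitoneOn F (Set.Ici 0) → (∀ x, 0 ≤ F x) →
      (∀ V : ℝ, 0 ≤ V → ∫ x in (0 : ℝ)..V, F x ≤ I) → (V : ℝ) ≤ (X : ℝ) ^ (1 - cc a) →
      ∑ v ∈ (Finset.Icc 1 V).filter (fun v => qpart z v = w),
        F v * ∑ s ∈ SA a X, ∑ t' ∈ SA a X, (rhoQ z r (prodS s * prodS t') v : ℝ) *
          JJ z X ρ ∅ (prodS s * prodS t') v * fej (l * (Real.log (prodS s * prodS t' : ℕ) - t)) ≤
        GG X ρ * ((∑ v ∈ (Finset.Icc 1 V).filter (fun v => qpart z v = w), F v * rbar z r v) *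
            SF a X (kA a X) ∅ l t +
          (ε / (2 * W0)) * I * (SF a X (kA a X) ∅ l t + (NA a X) ^ 2 / Real.log X)) := by
    have h1 : ∀ w : ℕ, ∃ X1 : ℕ, 1 ≤ w → ∀ X ≥ X1, ∀ ρ : ℕ → ℝ,
      SWt z X (PA a X) (cc a) C0 ρ → ∀ (V : ℕ) (F : ℝ → ℝ) (I t : ℝ),
      AntitoneOn F (Set.Ici 0) → (∀ x, 0 ≤ F x) →
      (∀ V : ℝ, 0 ≤ V → ∫ x in (0 : ℝ)..V, F x ≤ I) → (V : ℝ) ≤ (X : ℝ) ^ (1 - cc a) →
      ∑ v ∈ (Finset.Icc 1 V).filter (fun v => qpart z v = w),
        F v * ∑ s ∈ SA a X, ∑ t' ∈ SA a X, (rhoQ z r (prodS s * prodS t') v : ℝ) *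
          JJ z X ρ ∅ (prodS s * prodS t') v * fej (l * (Real.log (prodS s * prodS t' : ℕ) - t)) ≤
        GG X ρ * ((∑ v ∈ (Finset.Icc 1 V).filter (fun v => qpart z v = w), F v * rbar z r v) *
            SF a X (kA a X) ∅ l t +
          (ε / (2 * W0)) * I * (SF a X (kA a X) ∅ l t + (NA a X) ^ 2 / Real.log X)) := by
      intro w
      by_cases hw : 1 ≤ w
      · obtain ⟨X1, hX1⟩ := hTE a ha z r hz hr C0 w hC0 hw l (ε / (2 * W0)) hl (by positivity)
        exact ⟨X1, fun _ => hX1⟩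
      · exact ⟨0, fun h => absurd h hw⟩
    choose f hf using h1
    refine ⟨(Finset.range (W0 + 1)).sup f, fun w hw hwW X hX => ?_⟩
    exact hf w hw X ((Finset.le_sup (Finset.mem_range.2 (by omega))).trans hX)
  obtain ⟨X1, hX1⟩ := hTE'
  obtain ⟨X2, hX2⟩ := hTC a ha z C0 0 hC0 l 1 hl one_pos
  obtain ⟨X3, hX3⟩ := Filter.eventually_atTop.1
    (((yA_tendsto a ha).eventually_ge_atTop z).and (Filter.eventually_ge_atTop 3))
  refine ⟨max X1 (max X2 X3), fun X hX ρ hρ V F I t hF hF0 hFI hV => ?_⟩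
  have hXX1 : X1 ≤ X := (le_max_left _ _).trans hX
  have hXX2 : X2 ≤ X := ((le_max_left _ _).trans (le_max_right _ _)).trans hX
  obtain ⟨hy, hX3'⟩ := hX3 X (((le_max_right _ _).trans (le_max_right _ _)).trans hX)
  have hlX : 0 < Real.log X := Real.log_pos (by exact_mod_cast (by omega : 1 < X))
  have hG : 0 ≤ GG X ρ := le_trans (by positivity) hρ.low
  have hI : 0 ≤ I := by simpa using hFI 0 le_rfl
  have hPA : ∀ p ∈ PA a X, p.Prime ∧ ¬ p ∣ Qz z := by
    intro p hp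
    unfold PA PP at hp
    rw [Finset.mem_filter, Finset.mem_Ioc] at hp
    refine ⟨hp.2, fun h => ?_⟩
    have := prime_dvd_Qz hz hp.2 h
    omega
  have hSAsub : ∀ s ∈ SA a X, s ⊆ PA a X := fun s hs => by
    unfold SA at hs
    exact (Finset.mem_powersetCard.1 hs).1
  set S := SF a X (kA a X) ∅ l t with hS
  have hS0 : 0 ≤ S := by
    rw [hS]
    unfold SF
    exact Finset.sum_nonneg fun s _ => Finset.sum_nonneg fun t' _ => hfej _
  set Nn := (NA a X) ^ 2 / Real.log X with hNn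
  have hNn0 : 0 ≤ Nn := by positivity
  -- the terms
  set T : ℕ → ℝ := fun v => F v * ∑ s ∈ SA a X, ∑ t' ∈ SA a X,
    (rhoQ z r (prodS s * prodS t') v : ℝ) * JJ z X ρ ∅ (prodS s * prodS t') v *
      fej (l * (Real.log (prodS s * prodS t' : ℕ) - t)) with hT
  have hrb := (h6b z r hz hr).1
  -- large parts
  have hbig : ∀ w ∈ (Finset.Icc 1 V).image (qpart z), W0 < w →
      ∑ v ∈ (Finset.Icc 1 V).filter (fun v => qpart z v = w), T v ≤
        K * (GG X ρ * (I / w) * (2 * S + Nn)) := by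
    intro w hw _
    rw [Finset.mem_image] at hw
    obtain ⟨v0, hv0, hv0w⟩ := hw
    have hw1 : 1 ≤ w := hv0w ▸ qpart_pos z v0
    have hws : ∀ p : ℕ, p.Prime → p ∣ w → p ∣ Qz z := fun p hp h =>
      qpart_smooth z v0 p hp (hv0w ▸ h)
    have h1 := hX2 X hXX2 ρ hρ ∅ w V F I t (Finset.empty_subset _) (by simp) hw1 hws hF hF0 hFI hV
    rw [Finset.card_empty, pow_zero, one_mul, Nat.sub_zero] at h1
    have h2 : ∀ v : ℕ, 1 ≤ v → T v ≤ K * UJ a z X (kA a X) ρ ∅ F l t v := by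
      intro v hv
      rw [hT]
      unfold UJ
      simp only
      rw [mul_left_comm]
      refine mul_le_mul_of_nonneg_left ?_ (hF0 _)
      rw [Finset.mul_sum]
      refine Finset.sum_le_sum fun s hs => ?_
      rw [Finset.mul_sum]
      refine Finset.sum_le_sum fun t' ht' => ?_
      have e : (prodS ∅ ^ 2 * (prodS s * prodS t') : ℕ) = prodS s * prodS t' := by
        unfold prodS
        simp
      rw [e, mul_assoc]
      have hJ := hJP z X (PA a X) (cc a) C0 ρ ∅ (prodS s * prodS t') v hρ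
      refine mul_le_mul_of_nonneg_right ?_ (mul_nonneg hJ (hfej _))
      have hco : (prodS s * prodS t').Coprime (Qz z) :=
        Nat.Coprime.mul_left (prodS_coprime z _ s (hSAsub s hs) hPA)
          (prodS_coprime z _ t' (hSAsub t' ht') hPA)
      have := h3c z r (prodS s * prodS t') v hv hco
      rw [hK]
      exact_mod_cast this
    have hU0 : ∀ v : ℕ, 0 ≤ UJ a z X (kA a X) ρ ∅ F l t v := by
      intro v
      unfold UJ
      refine mul_nonneg (hF0 _) (Finset.sum_nonneg fun s _ => Finset.sum_nonneg fun t' _ => ?_)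
      exact mul_nonneg (hJP z X (PA a X) (cc a) C0 ρ ∅ _ v hρ) (hfej _)
    calc ∑ v ∈ (Finset.Icc 1 V).filter (fun v => qpart z v = w), T v
        ≤ ∑ v ∈ (Finset.Icc 1 V).filter (fun v => qpart z v = w),
          K * UJ a z X (kA a X) ρ ∅ F l t v := by
          refine Finset.sum_le_sum fun v hv => h2 v ?_
          rw [Finset.mem_filter, Finset.mem_Icc] at hv
          exact hv.1.1
      _ ≤ ∑ v ∈ (Finset.Icc 1 V).filter (fun v => w ∣ v),
          K * UJ a z X (kA a X) ρ ∅ F l t v := by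
          refine Finset.sum_le_sum_of_subset_of_nonneg ?_
            fun v _ _ => mul_nonneg hK0 (hU0 v)
          intro v hv
          rw [Finset.mem_filter, Finset.mem_Icc] at hv ⊢
          exact ⟨hv.1, hv.2 ▸ qpart_dvd z v hv.1.1⟩
      _ = K * ∑ v ∈ (Finset.Icc 1 V).filter (fun v => w ∣ v),
          UJ a z X (kA a X) ρ ∅ F l t v := by rw [Finset.mul_sum]
      _ ≤ K * (GG X ρ * (I / w) * (2 * S + Nn)) := by
          refine mul_le_mul_of_nonneg_left (h1.trans (le_of_eq ?_)) hK0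
          rw [hS, hNn]
          unfold NA
          ring
  -- the sum over the fibres
  have hfib : ∑ v ∈ Finset.Icc 1 V, T v = ∑ w ∈ (Finset.Icc 1 V).image (qpart z),
      ∑ v ∈ (Finset.Icc 1 V).filter (fun v => qpart z v = w), T v :=
    (Finset.sum_fiberwise_of_maps_to (fun v hv => Finset.mem_image_of_mem _ hv) _).symm
  have hfib2 : ∑ v ∈ Finset.Icc 1 V, F v * rbar z r v = ∑ w ∈ (Finset.Icc 1 V).image (qpart z),
      ∑ v ∈ (Finset.Icc 1 V).filter (fun v => qpart z v = w), F v * rbar z r v :=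
    (Finset.sum_fiberwise_of_maps_to (fun v hv => Finset.mem_image_of_mem _ hv) _).symm
  set A := (Finset.Icc 1 V).image (qpart z) with hA
  have hAsm : ∀ w ∈ A, 1 ≤ w ∧ w ∈ Nat.smoothNumbers (z + 1) := by
    intro w hw
    rw [hA, Finset.mem_image] at hw
    obtain ⟨v, _, rfl⟩ := hw
    refine ⟨qpart_pos z v, ?_⟩
    rw [Nat.mem_smoothNumbers']
    intro p hp hpw
    exact Nat.lt_succ_of_le (prime_dvd_Qz hz hp (qpart_smooth z v p hp hpw))
  have hsmall : ∑ w ∈ A.filter (fun w => w ≤ W0),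
      ∑ v ∈ (Finset.Icc 1 V).filter (fun v => qpart z v = w), T v ≤
      GG X ρ * ((∑ v ∈ Finset.Icc 1 V, F v * rbar z r v) * S + ε / 2 * I * (S + Nn)) := by
    have h1 : ∀ w ∈ A.filter (fun w => w ≤ W0),
        ∑ v ∈ (Finset.Icc 1 V).filter (fun v => qpart z v = w), T v ≤
        GG X ρ * ((∑ v ∈ (Finset.Icc 1 V).filter (fun v => qpart z v = w), F v * rbar z r v) * S +
          (ε / (2 * W0)) * I * (S + Nn)) := by
      intro w hw
      rw [Finset.mem_filter] at hw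
      exact hX1 w (hAsm w hw.1).1 hw.2 X hXX1 ρ hρ V F I t hF hF0 hFI hV
    refine (Finset.sum_le_sum h1).trans ?_
    rw [← Finset.mul_sum]
    refine mul_le_mul_of_nonneg_left ?_ hG
    rw [Finset.sum_add_distrib, ← Finset.sum_mul, Finset.sum_const, nsmul_eq_mul]
    have h2 : ∑ w ∈ A.filter (fun w => w ≤ W0),
        ∑ v ∈ (Finset.Icc 1 V).filter (fun v => qpart z v = w), F v * rbar z r v ≤
        ∑ v ∈ Finset.Icc 1 V, F v * rbar z r v := by
      rw [hfib2]
      refine Finset.sum_le_sum_of_subset_of_nonneg (Finset.filter_subset _ _) fun w _ _ => ?_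
      exact Finset.sum_nonneg fun v _ => mul_nonneg (hF0 _) (hrb v)
    have h3 : ((A.filter (fun w => w ≤ W0)).card : ℝ) ≤ W0 := by
      have h4 : A.filter (fun w => w ≤ W0) ⊆ Finset.Icc 1 W0 := by
        intro w hw
        rw [Finset.mem_filter] at hw
        exact Finset.mem_Icc.2 ⟨(hAsm w hw.1).1, hw.2⟩
      have h5 := Finset.card_le_card h4
      rw [Nat.card_Icc] at h5
      exact_mod_cast (by omega : (A.filter (fun w => w ≤ W0)).card ≤ W0)
    have h4 : ((A.filter (fun w => w ≤ W0)).card : ℝ) * (ε / (2 * W0) * I * (S + Nn)) ≤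
        ε / 2 * I * (S + Nn) := by
      calc ((A.filter (fun w => w ≤ W0)).card : ℝ) * (ε / (2 * W0) * I * (S + Nn))
          ≤ W0 * (ε / (2 * W0) * I * (S + Nn)) := by gcongr
        _ = ε / 2 * I * (S + Nn) := by field_simp
    exact add_le_add (mul_le_mul_of_nonneg_right h2 hS0) h4
  have hlarge : ∑ w ∈ A.filter (fun w => ¬ w ≤ W0),
      ∑ v ∈ (Finset.Icc 1 V).filter (fun v => qpart z v = w), T v ≤
      GG X ρ * (ε / 2 * I * (S + Nn)) := by
    have h1 : ∀ w ∈ A.filter (fun w => ¬ w ≤ W0),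
        ∑ v ∈ (Finset.Icc 1 V).filter (fun v => qpart z v = w), T v ≤
        (K * (GG X ρ * I * (2 * S + Nn))) * (1 / w) := by
      intro w hw
      rw [Finset.mem_filter, not_le] at hw
      refine (hbig w hw.1 hw.2).trans (le_of_eq ?_)
      ring
    refine (Finset.sum_le_sum h1).trans ?_
    rw [← Finset.mul_sum]
    have h2 := htail (A.filter (fun w => ¬ w ≤ W0)) (fun w hw => by
      rw [Finset.mem_filter, not_le] at hw
      exact ⟨hw.2, (hAsm w hw.1).2⟩)
    have h3 : 0 ≤ GG X ρ * I * (2 * S + Nn) := by positivity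
    calc K * (GG X ρ * I * (2 * S + Nn)) * ∑ w ∈ A.filter (fun w => ¬ w ≤ W0), (1 : ℝ) / w
        ≤ K * (GG X ρ * I * (2 * S + Nn)) * (ε / (4 * (K + 1))) := by gcongr
      _ = (K / (K + 1)) * (GG X ρ * I * (2 * S + Nn)) * (ε / 4) := by
          field_simp
      _ ≤ 1 * (GG X ρ * I * (2 * (S + Nn))) * (ε / 4) := by
          gcongr
          · rw [div_le_one (by positivity)]
            linarith
          · linarith
      _ = GG X ρ * (ε / 2 * I * (S + Nn)) := by ring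
  have hTB : ∑ v ∈ Finset.Icc 1 V, F v * rbar z r v ≤
      2 * PiR z r * (((∏ q ∈ (Finset.Icc 2 z).filter Nat.Prime, q : ℕ) : ℝ) * F 0 + I) := by
    have h1 := h6c (∏ q ∈ (Finset.Icc 2 z).filter Nat.Prime, q) (rbar z r) F I (2 * PiR z r)
      (Nat.one_le_iff_ne_zero.2 (Finset.prod_ne_zero_iff.2 fun p hp =>
        (Finset.mem_filter.1 hp).2.ne_zero)) hrb (h6b z r hz hr).2.1 (h6b z r hz hr).2.2
      hF hF0 hFI V
    refine le_trans (le_of_eq ?_) h1
    exact Finset.sum_congr rfl fun v _ => mul_comm _ _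
  show ∑ v ∈ Finset.Icc 1 V, T v ≤ _
  rw [hfib, ← Finset.sum_filter_add_sum_filter_not A (fun w => w ≤ W0)]
  refine (add_le_add hsmall hlarge).trans ?_
  rw [← mul_add]
  refine mul_le_mul_of_nonneg_left ?_ hG
  have h1 := mul_le_mul_of_nonneg_right hTB hS0
  linarith

end Run7.h67.CG
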